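import Pool.Agent.H681.OR.World

/-!
# Tables of fingerprints

The name `x`, a bit string of length less than `B`, is turned into a polynomial of degree less than
`B` over the field with `pr B` elements, where `B ^ 2 < pr B`. The table of `x` contains the labels
`(B, a, value at a)` for all elements `a` of the field.
-/

set_option autoImplicit false

namespace Pool.Agent.H681.TB

open Pool.Agent.NPC Pool.Agent.H620R2.Gauge Pool.Agent.H681.OR Polynomial

/-! ### The polynomial -/

/-- the polynomial of a bit string -/
noncomputable def pol (p : ℕ) : List Bool → (ZMod p)[X]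
  | [] => 1
  | b :: x => C (if b then 1 else 0) + X * pol p x

theorem pol_degree {p : ℕ} [Fact p.Prime] : ∀ x : List Bool, (pol p x).natDegree = x.length ∧
    pol p x ≠ 0
  | [] => by simp [pol]
  | b :: x => by
    obtain ⟨h1, h2⟩ := pol_degree (p := p) x
    have h3 : (X * pol p x).natDegree = x.length + 1 := by
      rw [natDegree_X_mul h2, h1]
    have h4 : (C (if b then (1 : ZMod p) else 0)).natDegree < (X * pol p x).natDegree := by
      rw [natDegree_C, h3]; omega
    have h5 : (pol p (b :: x)).natDegree = x.length + 1 := by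
      rw [pol, natDegree_add_eq_right_of_natDegree_lt h4, h3]
    refine ⟨by rw [h5, List.length_cons], fun h0 => ?_⟩
    rw [h0, natDegree_zero] at h5
    omega

theorem pol_inj {p : ℕ} [Fact p.Prime] : ∀ x y : List Bool, pol p x = pol p y → x = y
  | [], [], _ => rfl
  | [], b :: y, h => by
    have := congrArg natDegree h
    rw [(pol_degree _).1, (pol_degree _).1] at this
    simp at this
  | b :: x, [], h => by
    have := congrArg natDegree h
    rw [(pol_degree _).1, (pol_degree _).1] at this
    simp at this
  | b :: x, c :: y, h => by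
    have h1 := congrArg (fun f => coeff f 0) h
    simp only [pol, coeff_add, coeff_C_zero, mul_coeff_zero, coeff_X_zero, zero_mul, add_zero]
      at h1
    have hbc : b = c := by
      cases b <;> cases c <;> simp at h1 ⊢
    subst hbc
    simp only [pol, add_right_inj] at h
    rw [pol_inj x y (mul_left_cancel₀ X_ne_zero h)]

/-! ### The prime -/

theorem exists_pr (B : ℕ) : ∃ p, p.Prime ∧ B ^ 2 + 1 < p ∧ p ≤ 2 * (B ^ 2 + 1) :=
  Nat.exists_prime_lt_and_le_two_mul _ (Nat.succ_ne_zero _)

/-- the prime -/
noncomputable def pr (B : ℕ) : ℕ := (exists_pr B).choose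

theorem pr_prime (B : ℕ) : (pr B).Prime := (exists_pr B).choose_spec.1

theorem pr_gt (B : ℕ) : B ^ 2 < pr B := lt_trans (Nat.lt_succ_self _) (exists_pr B).choose_spec.2.1

/-- the number of the entries of a table -/
def NE (B : ℕ) : ℕ := 2 * (B ^ 2 + 1)

theorem pr_le (B : ℕ) : pr B ≤ NE B := (exists_pr B).choose_spec.2.2

instance (B : ℕ) : Fact (pr B).Prime := ⟨pr_prime B⟩

/-- the number of bits of a number in a label -/
def wd (B : ℕ) : ℕ := Nat.size (NE B)

theorem lt_wd {B n : ℕ} (h : n ≤ NE B) : n < 2 ^ wd B := lt_of_le_of_lt h (Nat.lt_size_self _)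

theorem le_NE (B : ℕ) : B ≤ NE B := by
  unfold NE
  nlinarith [Nat.zero_le B, sq_nonneg ((B : ℤ) - 1)]

/-- the value of the polynomial of `x` at `a` -/
noncomputable def ev (B : ℕ) (x : List Bool) (a : ℕ) : ℕ :=
  ((pol (pr B) x).eval (a : ZMod (pr B))).val

theorem ev_lt (B : ℕ) (x : List Bool) (a : ℕ) : ev B x a < pr B := ZMod.val_lt _

/-! ### Numbers in binary -/

/-- the number `n` with `w` binary digits -/
def bitsF (w n : ℕ) : List Bool := (List.range w).map fun i => n.testBit i

@[simp] theorem bitsF_length (w n : ℕ) : (bitsF w n).length = w := by simp [bitsF]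

theorem bitsF_inj {w m n : ℕ} (hm : m < 2 ^ w) (hn : n < 2 ^ w) (h : bitsF w m = bitsF w n) :
    m = n := by
  refine Nat.eq_of_testBit_eq fun i => ?_
  by_cases hi : i < w
  · have h1 : (bitsF w m)[i]'(by simpa using hi) = (bitsF w n)[i]'(by simpa using hi) := by
      simp only [h]
    simpa [bitsF] using h1
  · rw [Nat.testBit_lt_two_pow (hm.trans_le (Nat.pow_le_pow_right (by norm_num) (not_lt.1 hi))),
      Nat.testBit_lt_two_pow (hn.trans_le (Nat.pow_le_pow_right (by norm_num) (not_lt.1 hi)))]

/-! ### Labels -/

/-- the label number `a` of the table of `x` -/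
noncomputable def lab (B : ℕ) (x : List Bool) (a : ℕ) : List Bool :=
  true :: false :: true :: pairBits (bitsF (wd B) B)
    (bitsF (wd B) (a % pr B) ++ bitsF (wd B) (ev B x (a % pr B)))

/-- the length of a label -/
def lam (B : ℕ) : ℕ := 4 * wd B + 4

theorem lab_length (B : ℕ) (x : List Bool) (a : ℕ) : (lab B x a).length = lam B := by
  unfold lab lam
  simp only [List.length_cons, pairBits_len, List.length_append, bitsF_length]
  ring

theorem lam_pos (B : ℕ) : 0 < lam B := by unfold lam; omega

theorem pairBits_append (u v r : List Bool) : pairBits u v ++ r = pairBits u (v ++ r) := by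
  unfold pairBits
  rw [List.append_assoc, List.cons_append]

theorem lab_append_inj {B B' a a' : ℕ} {x x' r r' : List Bool}
    (h : lab B x a ++ r = lab B' x' a' ++ r') : B = B' ∧ lab B x a = lab B' x' a' ∧ r = r' := by
  have h1 : pairBits (bitsF (wd B) B) (bitsF (wd B) (a % pr B) ++
      bitsF (wd B) (ev B x (a % pr B)) ++ r) = pairBits (bitsF (wd B') B')
      (bitsF (wd B') (a' % pr B') ++ bitsF (wd B') (ev B' x' (a' % pr B')) ++ r') := by
    unfold lab at h
    simp only [List.cons_append, List.cons.injEq, true_and] at h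
    rw [pairBits_append, pairBits_append] at h
    exact h
  obtain ⟨h2, h3⟩ := pairBits_inj' h1
  have h4 : wd B = wd B' := by simpa using congrArg List.length h2
  have h5 : B = B' := by
    rw [← h4] at h2
    exact bitsF_inj (lt_wd (le_NE B)) (by rw [h4]; exact lt_wd (le_NE B')) h2
  subst h5
  obtain ⟨h6, h7⟩ := List.append_inj h3 (by simp)
  refine ⟨rfl, ?_, h7⟩
  unfold lab
  rw [h6]

theorem lab_eq {B a a' : ℕ} {x x' : List Bool} (h : lab B x a = lab B x' a') :
    a % pr B = a' % pr B ∧ ev B x (a % pr B) = ev B x' (a' % pr B) := by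
  unfold lab at h
  simp only [List.cons.injEq, true_and] at h
  obtain ⟨_, h2⟩ := pairBits_inj' h
  obtain ⟨h3, h4⟩ := List.append_inj h2 (by simp)
  have hp := (pr_prime B).pos
  have e : ∀ a, a % pr B ≤ NE B := fun a => (Nat.mod_lt a hp).le.trans (pr_le B)
  have e' : ∀ x a, ev B x a ≤ NE B := fun x a => (ev_lt B x a).le.trans (pr_le B)
  exact ⟨bitsF_inj (lt_wd (e _)) (lt_wd (e _)) h3, bitsF_inj (lt_wd (e' _ _)) (lt_wd (e' _ _)) h4⟩

/-- the question -/
noncomputable def qst (B : ℕ) (x : List Bool) (as : List ℕ) : List Bool :=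
  (as.map (lab B x)).flatten

theorem qst_length (B : ℕ) (x : List Bool) : ∀ as : List ℕ,
    (qst B x as).length = as.length * lam B
  | [] => by simp [qst]
  | a :: as => by
    have := qst_length B x as
    unfold qst at this ⊢
    rw [List.map_cons, List.flatten_cons, List.length_append, this, lab_length, List.length_cons]
    ring

theorem qst_inj {B B' : ℕ} {x x' : List Bool} : ∀ as as' : List ℕ,
    qst B x as = qst B' x' as' → as.map (lab B x) = as'.map (lab B' x')
  | [], [], _ => rfl
  | [], a :: as', h => by
    have := congrArg List.length h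
    rw [qst_length, qst_length, List.length_nil, List.length_cons, Nat.succ_mul] at this
    have := lam_pos B'
    omega
  | a :: as, [], h => by
    have := congrArg List.length h
    rw [qst_length, qst_length, List.length_nil, List.length_cons, Nat.succ_mul] at this
    have := lam_pos B
    omega
  | a :: as, a' :: as', h => by
    have h1 : lab B x a ++ qst B x as = lab B' x' a' ++ qst B' x' as' := h
    obtain ⟨_, h3, h4⟩ := lab_append_inj h1
    rw [List.map_cons, List.map_cons, h3, qst_inj as as' h4]

theorem qst_inj_B {B B' : ℕ} {x x' : List Bool} {as as' : List ℕ} (h0 : as ≠ [])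
    (h : qst B x as = qst B' x' as') : B = B' ∧ as.length = as'.length := by
  have h1 := qst_inj as as' h
  have h2 := congrArg List.length h1
  rw [List.length_map, List.length_map] at h2
  refine ⟨?_, h2⟩
  rcases as with _ | ⟨a, as⟩
  · exact absurd rfl h0
  · rcases as' with _ | ⟨a', as'⟩
    · simp at h2
    · have h3 : lab B x a ++ qst B x as = lab B' x' a' ++ qst B' x' as' := h
      exact (lab_append_inj h3).1

/-- the start of a question -/
theorem qst_head {B : ℕ} {x : List Bool} {as : List ℕ} (h0 : as ≠ []) :
    ∃ z, qst B x as = true :: false :: true :: z := by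
  rcases as with _ | ⟨a, as⟩
  · exact absurd rfl h0
  · exact ⟨_, rfl⟩

/-! ### Private questions -/

theorem card_agree {B : ℕ} {x x' : List Bool} (hx : x.length < B) (hx' : x'.length < B)
    (hne : x' ≠ x) : (Finset.univ.filter fun a : ZMod (pr B) =>
      (pol (pr B) x).eval a = (pol (pr B) x').eval a).card ≤ B := by
  classical
  have h1 : pol (pr B) x - pol (pr B) x' ≠ 0 := fun h =>
    hne (pol_inj _ _ (sub_eq_zero.1 h)).symm
  have h2 : (pol (pr B) x - pol (pr B) x').natDegree ≤ B := by
    refine (natDegree_sub_le _ _).trans (max_le ?_ ?_)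
    · rw [(pol_degree x).1]; exact hx.le
    · rw [(pol_degree x').1]; exact hx'.le
  refine le_trans ?_ ((card_roots' (pol (pr B) x - pol (pr B) x')).trans h2)
  refine le_trans (Finset.card_le_card ?_) (Multiset.toFinset_card_le _)
  intro a ha
  rw [Finset.mem_filter] at ha
  rw [Multiset.mem_toFinset, mem_roots h1, IsRoot.def, eval_sub, ha.2, sub_self]

theorem exists_private {B h : ℕ} (hB : 2 ≤ B) {x : List Bool} (hx : x.length < B)
    (R : Finset (List Bool)) (hR : ∀ x' ∈ R, x'.length < B ∧ x' ≠ x) (Q : Finset (List Bool))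
    (hc : R.card + Q.card + 1 ≤ B ^ h) :
    ∃ as : List ℕ, as.length = h ∧ (∀ a ∈ as, a < NE B) ∧ (qst B x as).tail ∉ Q ∧
      ∀ x' ∈ R, ∀ as', qst B x' as' ≠ qst B x as := by
  classical
  let p := pr B
  let L : (Fin h → ZMod p) → List ℕ := fun f => List.ofFn fun i => (f i).val
  have hLlen : ∀ f, (L f).length = h := fun f => by simp [L]
  have hLlt : ∀ f, ∀ a ∈ L f, a < p := by
    intro f a ha
    simp only [L, List.mem_ofFn] at ha
    obtain ⟨i, rfl⟩ := ha
    exact ZMod.val_lt _
  have hget : ∀ (f : Fin h → ZMod p) (i : Fin h), (L f)[i.1]'(by rw [hLlen]; exact i.2) =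
      (f i).val := by
    intro f i
    simp [L]
  -- the bad functions
  let agr : List Bool → Finset (ZMod p) := fun x' => Finset.univ.filter fun a : ZMod p =>
    (pol p x).eval a = (pol p x').eval a
  let bad : Finset (Fin h → ZMod p) := R.biUnion (fun x' => Fintype.piFinset fun _ => agr x') ∪
    Finset.univ.filter fun f => (qst B x (L f)).tail ∈ Q
  have key : ∀ (f : Fin h → ZMod p) (x' : List Bool) (as' : List ℕ),
      qst B x' as' = qst B x (L f) → f ∈ Fintype.piFinset fun _ => agr x' := by
    intro f x' as' he
    rw [Fintype.mem_piFinset]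
    intro i
    have h1 := qst_inj _ _ he
    have h2 : as'.length = h := by
      have := congrArg List.length h1
      simpa [hLlen] using this
    have h3 : lab B x' (as'[i.1]'(by rw [h2]; exact i.2)) = lab B x (f i).val := by
      have h4 : (as'.map (lab B x'))[i.1]'(by rw [List.length_map, h2]; exact i.2) =
          ((L f).map (lab B x))[i.1]'(by rw [List.length_map, hLlen]; exact i.2) := by
        simp only [h1]
      rw [List.getElem_map, List.getElem_map, hget] at h4
      exact h4
    obtain ⟨h5, h6⟩ := lab_eq h3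
    rw [h5, Nat.mod_eq_of_lt (ZMod.val_lt (f i))] at h6
    simp only [agr, Finset.mem_filter, Finset.mem_univ, true_and]
    unfold ev at h6
    rw [ZMod.natCast_zmod_val] at h6
    exact (ZMod.val_injective _ h6).symm
  have hinj : Function.Injective fun f : Fin h → ZMod p => qst B x (L f) := by
    intro f g hfg
    have h1 := qst_inj _ _ hfg
    funext i
    have h4 : ((L f).map (lab B x))[i.1]'(by rw [List.length_map, hLlen]; exact i.2) =
        ((L g).map (lab B x))[i.1]'(by rw [List.length_map, hLlen]; exact i.2) := by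
      simp only [h1]
    rw [List.getElem_map, List.getElem_map, hget, hget] at h4
    have h5 := (lab_eq h4).1
    rw [Nat.mod_eq_of_lt (ZMod.val_lt (f i)), Nat.mod_eq_of_lt (ZMod.val_lt (g i))] at h5
    exact ZMod.val_injective _ h5
  have hcQ : (Finset.univ.filter fun f : Fin h → ZMod p => (qst B x (L f)).tail ∈ Q).card ≤
      Q.card := by
    refine Finset.card_le_card_of_injOn (fun f => (qst B x (L f)).tail) ?_ ?_
    · intro f hf
      have hf' := Finset.mem_coe.1 hf
      rw [Finset.mem_filter] at hf'
      exact hf'.2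
    · intro f _ g _ hfg
      apply hinj
      show qst B x (L f) = qst B x (L g)
      by_cases h0 : h = 0
      · have e1 : L f = [] := List.length_eq_zero_iff.1 (by rw [hLlen, h0])
        have e2 : L g = [] := List.length_eq_zero_iff.1 (by rw [hLlen, h0])
        rw [e1, e2]
      · obtain ⟨z, hz⟩ := qst_head (B := B) (x := x) (as := L f) (fun e => h0 (by
          rw [← hLlen f, e]; rfl))
        obtain ⟨z', hz'⟩ := qst_head (B := B) (x := x) (as := L g) (fun e => h0 (by
          rw [← hLlen g, e]; rfl))
        have h7 : (qst B x (L f)).tail = (qst B x (L g)).tail := hfg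
        rw [hz, hz', List.tail_cons, List.tail_cons] at h7
        rw [hz, hz', h7]
  have hcR : (R.biUnion fun x' => Fintype.piFinset fun _ : Fin h => agr x').card ≤
      R.card * B ^ h := by
    refine Finset.card_biUnion_le_card_mul _ _ _ fun x' hx' => ?_
    rw [Fintype.card_piFinset_const]
    exact Nat.pow_le_pow_left (card_agree hx (hR x' hx').1 (hR x' hx').2) h
  have hbad : bad.card < (Finset.univ : Finset (Fin h → ZMod p)).card := by
    have h1 : bad.card ≤ R.card * B ^ h + Q.card :=
      (Finset.card_union_le _ _).trans (Nat.add_le_add hcR hcQ)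
    have h2 : (Finset.univ : Finset (Fin h → ZMod p)).card = p ^ h := by
      rw [Finset.card_univ, Fintype.card_fun, Fintype.card_fin, ZMod.card]
    rw [h2]
    have h3 : (B ^ 2) ^ h ≤ p ^ h := Nat.pow_le_pow_left (pr_gt B).le h
    have h4 : (B ^ 2) ^ h = B ^ h * B ^ h := by rw [← pow_mul, ← pow_add]; ring_nf
    have h5 : 1 ≤ B ^ h := Nat.one_le_pow _ _ (by omega)
    have h6 : (R.card + Q.card + 1) * B ^ h ≤ B ^ h * B ^ h := Nat.mul_le_mul_right _ hc
    have h7 : (R.card + Q.card + 1) * B ^ h = R.card * B ^ h + Q.card * B ^ h + B ^ h := by ring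
    have h8 : Q.card ≤ Q.card * B ^ h := Nat.le_mul_of_pos_right _ h5
    omega
  obtain ⟨f, _, hf⟩ := Finset.exists_mem_notMem_of_card_lt_card hbad
  simp only [bad, Finset.mem_union, Finset.mem_biUnion, Finset.mem_filter, Finset.mem_univ,
    true_and, not_or, not_exists, not_and] at hf
  refine ⟨L f, hLlen f, fun a ha => (hLlt f a ha).trans_le (pr_le B), hf.2, fun x' hx' as' he => ?_⟩
  exact hf.1 x' hx' (key f x' as' he)

end Pool.Agent.H681.TB
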