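import Pool.Agent.H681.TB.World
import Pool.Agent.H681.OR.LogSat

/-!
# The collapse to `W[1]`
-/

set_option autoImplicit false

namespace Pool.Agent.H681.TB

open Pool.Agent.NPC Pool.Agent.H620R2.Gauge Pool.Agent.H622R2 Pool.Agent.Y626.WG
open Pool.Agent.H681.OR
open Pool.Agent.TH678.GC (join)
open Pool.Agent.TH678.WP (uPoly_log poly_replicate computable_pairBits computable_replicate log_size)
open Pool.Agent.Y626.WC (isFP_total InFPT sat_one)

/-! ### The instances -/

/-- the instance for the table `T` -/
def instT (T : List (List Bool)) (h : ℕ) : Inst where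
  labels := T
  rels := []
  blocks := [h]
  atoms := [(0, List.range h)]
  acc := [[true]]

theorem instT_param (T : List (List Bool)) (h : ℕ) : (instT T h).param = 2 * h + 1 := by
  unfold Inst.param instT
  simp
  ring

theorem instT_isW {T : List (List Bool)} (hT : T ≠ []) (h : ℕ) : (instT T h).IsW 1 := by
  refine ⟨⟨hT, by simp [instT]⟩, ?_⟩
  intro x hx
  simp [instT] at hx

theorem instT_sat {T : List (List Bool)} (hT : T ≠ []) (h : ℕ) (A : Oracle) :
    (instT T h).Sat A ↔ TSat A T h := by
  classical
  rw [sat_one (instT_isW hT h)]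
  have hat : ∀ v : List ℕ, ((instT T h).atoms.map ((instT T h).atom A v) ∈ (instT T h).acc ↔
      A ((List.range h).map fun i => T.getD (v.getD i 0) []).flatten = true) := by
    intro v
    show [A ((List.range h).flatMap fun i => T.getD (v.getD i 0) [])] ∈ [[true]] ↔ _
    rw [List.flatMap_def]
    simp
  constructor
  · rintro ⟨v, ⟨h1, h2⟩, h3⟩
    have h1' : v.length = h := by simpa [instT] using h1
    rw [hat] at h3
    refine ⟨_, by simp, ?_, h3⟩
    intro l hl
    obtain ⟨i, hi, rfl⟩ := List.mem_map.1 hl
    rw [List.mem_range] at hi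
    have h4 : i < v.length := by omega
    rw [List.getD_eq_getElem _ _ h4]
    have h5 : v[i] < T.length := h2 _ (List.getElem_mem h4)
    rw [List.getD_eq_getElem _ _ h5]
    exact List.getElem_mem h5
  · rintro ⟨u, h1, h2, h3⟩
    refine ⟨u.map fun l => T.idxOf l, ⟨?_, ?_⟩, ?_⟩
    · simpa [instT] using h1
    · intro a ha
      obtain ⟨l, hl, rfl⟩ := List.mem_map.1 ha
      exact List.idxOf_lt_length_of_mem (h2 l hl)
    · rw [hat]
      have h4 : ((List.range h).map fun i => T.getD ((u.map fun l => T.idxOf l).getD i 0) []) =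
          u := by
        refine List.ext_getElem (by simpa using h1.symm) fun i h5 h6 => ?_
        have e5 : (u.map fun l => T.idxOf l).getD i 0 = T.idxOf u[i] := by
          rw [List.getD_eq_getElem _ _ (by rw [List.length_map]; exact h6), List.getElem_map]
        rw [List.getElem_map, List.getElem_range, e5]
        have h7 := h2 _ (List.getElem_mem h6)
        rw [List.getD_eq_getElem _ _ (List.idxOf_lt_length_of_mem h7), List.getElem_idxOf]
      rw [h4]
      exact h3

/-! ### The reduction -/

theorem uPoly_NE {α : Type} [TEnc α] {B : α → ℕ} (hB : UPoly B) : UPoly (fun a => NE (B a)) := by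
  have h : UPoly (fun a => 2 * (B a * B a + 1)) :=
    (UPoly.const 2).mul ((hB.mul hB).add (UPoly.const 1))
  have e : (fun a => NE (B a)) = fun a => 2 * (B a * B a + 1) := by
    funext a
    unfold NE
    rw [pow_two]
  rw [e]
  exact h

theorem uPoly_lam {α : Type} [TEnc α] {B : α → ℕ} (hB : UPoly B) : UPoly (fun a => lam (B a)) := by
  have h1 : UPoly (fun a => (NE (B a)).bits.length) :=
    UPoly.length (Poly.natBits (uPoly_NE hB).toPoly)
  have h : UPoly (fun a => 4 * (NE (B a)).bits.length + 4) :=
    ((UPoly.const 4).mul h1).add (UPoly.const 4)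
  have e : (fun a => lam (B a)) = fun a => 4 * (NE (B a)).bits.length + 4 := by
    funext a
    unfold lam wd
    rw [Nat.size_eq_bits_len]
  rw [e]
  exact h

/-- the bound for the questions -/
def zq (z : List Bool) : ℕ := (unpair (unpair (unpair z).2).1).2.tail.length *
  (Nat.log 2 (unpair (unpair z).2).2.length + 1)

/-- the name -/
def znm (i : ℕ) (z : List Bool) : List Bool :=
  pairBits (List.replicate i true) (pairBits (List.replicate (zq z) true) (unpair z).1)

/-- the level -/
def zB (i : ℕ) (z : List Bool) : ℕ := (znm i z).length + 2 + (unpair (unpair z).2).2.length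

/-- the number of the labels of a question -/
def zh (z : List Bool) : ℕ := (unpair (unpair (unpair z).2).1).2.length

/-- the key -/
def zK (i : ℕ) (z : List Bool) : TKey := ⟨i, (unpair z).1, zq z, zB i z, zh z⟩

theorem zK_nm (i : ℕ) (z : List Bool) : (zK i z).nm = znm i z := rfl

theorem uPoly_zq : UPoly zq :=
  (UPoly.length (NPC.Poly.tail ((NPC.Poly.snd poly_unpair).comp ((NPC.Poly.fst poly_unpair).comp
    (NPC.Poly.snd poly_unpair))))).mul (uPoly_log ((NPC.Poly.snd poly_unpair).comp
      (NPC.Poly.snd poly_unpair)))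

theorem poly_znm (i : ℕ) : NPC.Poly (znm i) :=
  poly_pb (NPC.Poly.const _) (poly_pb (poly_replicate uPoly_zq true) (NPC.Poly.fst poly_unpair))

theorem uPoly_zB (i : ℕ) : UPoly (zB i) :=
  ((UPoly.length (poly_znm i)).add (UPoly.const 2)).add (UPoly.length
    ((NPC.Poly.snd poly_unpair).comp (NPC.Poly.snd poly_unpair)))

theorem uPoly_zh : UPoly zh :=
  UPoly.length ((NPC.Poly.snd poly_unpair).comp ((NPC.Poly.fst poly_unpair).comp
    (NPC.Poly.snd poly_unpair)))

/-- the questions of the reduction -/
def zqs (i : ℕ) (z : List Bool) : List (List Bool) :=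
  (List.range (NE (zB i z) * lam (zB i z))).map fun n => true :: true :: (zK i z).enc n

theorem poly_zqs (i : ℕ) : NPC.Poly (zqs i) := by
  have hNE := uPoly_NE (uPoly_zB i)
  have hlam := uPoly_lam (uPoly_zB i)
  refine NPC.Poly.map (F := fun z n => true :: true :: (zK i z).enc n) (hNE.mul hlam).range ?_
  refine NPC.Poly.cons (NPC.Poly.const true) (NPC.Poly.cons (NPC.Poly.const true) ?_)
  refine poly_pb (poly_unit (uPoly_comp_fst (hNE.mul hlam)) (NPC.Poly.snd NPC.Poly.id)) ?_
  refine poly_pb (poly_replicate (uPoly_comp_fst (uPoly_zB i)) true) ?_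
  refine poly_pb (poly_replicate (uPoly_comp_fst (uPoly_zh.mul hlam)) true) ?_
  exact (poly_znm i).comp (NPC.Poly.fst NPC.Poly.id)

/-- the table -/
def ztab (i : ℕ) (z ans : List Bool) : List (List Bool) :=
  (List.range (NE (zB i z))).map fun a => (List.range (lam (zB i z))).map fun j =>
    ans.getD (a * lam (zB i z) + j) false

theorem poly_ztab (i : ℕ) : NPC.Poly (fun p : List Bool × List Bool => ztab i p.1 p.2) := by
  have hNE := uPoly_NE (uPoly_zB i)
  have hlam := uPoly_lam (uPoly_zB i)
  have f1 : NPC.Poly (fun p : List Bool × List Bool => p.1) := NPC.Poly.fst NPC.Poly.id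
  refine NPC.Poly.map (F := fun (p : List Bool × List Bool) a =>
    (List.range (lam (zB i p.1))).map fun j =>
      p.2.getD (a * lam (zB i p.1) + j) false) (hNE.comp f1).range ?_
  have f2 : NPC.Poly (fun p : (List Bool × List Bool) × ℕ => p.1.1) :=
    NPC.Poly.fst (NPC.Poly.fst NPC.Poly.id)
  refine NPC.Poly.map (F := fun (p : (List Bool × List Bool) × ℕ) j =>
      p.1.2.getD (p.2 * lam (zB i p.1.1) + j) false) (hlam.comp f2).range ?_
  have f3 : NPC.Poly (fun p : ((List Bool × List Bool) × ℕ) × ℕ => p.1.1.1) :=
    NPC.Poly.fst (NPC.Poly.fst (NPC.Poly.fst NPC.Poly.id))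
  have f4 : NPC.Poly (fun p : ((List Bool × List Bool) × ℕ) × ℕ => p.1.1.2) :=
    NPC.Poly.snd (NPC.Poly.fst (NPC.Poly.fst NPC.Poly.id))
  have f5 : NPC.Poly (fun p : ((List Bool × List Bool) × ℕ) × ℕ => p.1.2) :=
    NPC.Poly.snd (NPC.Poly.fst NPC.Poly.id)
  have f6 : NPC.Poly (fun p : ((List Bool × List Bool) × ℕ) × ℕ => p.2) :=
    NPC.Poly.snd NPC.Poly.id
  exact NPC.Poly.getD f4 (NPC.Poly.add (NPC.Poly.mul f5 (hlam.comp f3).toPoly) f6)
    (NPC.Poly.const false)

theorem poly_instT {α : Type} [TEnc α] {T : α → List (List Bool)} {h : α → ℕ}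
    (hT : NPC.Poly T) (hh : UPoly h) : NPC.Poly (fun a => instT (T a) (h a)) :=
  poly_inst hT (NPC.Poly.const []) (NPC.Poly.cons hh.toPoly (NPC.Poly.const []))
    (NPC.Poly.cons (NPC.Poly.pair (NPC.Poly.const 0) hh.range) (NPC.Poly.const []))
    (NPC.Poly.const [[true]])

theorem shape_ne {B : ℕ} {T : List (List Bool)} (h : Shape B T) : T ≠ [] := by
  intro e
  have := h.1
  rw [e, List.length_nil] at this
  unfold NE at this
  omega

/-- The table is computed from its code. -/
theorem table_eq {E : Oracle} {K : TKey} {T : List (List Bool)} (hT : Shape K.B T)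
    (hC : TCodes E K T) : ((List.range (NE K.B)).map fun a => (List.range (lam K.B)).map fun j =>
      (((List.range (NE K.B * lam K.B)).map fun n => E (true :: K.enc n))).getD
        (a * lam K.B + j) false) = T := by
  refine List.ext_getElem (by simp [hT.1]) fun a h1 h2 => ?_
  rw [List.length_map, List.length_range] at h1
  have h3 : T[a].length = lam K.B := hT.2 _ (List.getElem_mem h2)
  rw [List.getElem_map, List.getElem_range]
  refine List.ext_getElem (by simp [h3]) fun j h4 h5 => ?_
  rw [List.length_map, List.length_range] at h4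
  rw [List.getElem_map, List.getElem_range, List.getD_eq_getElem _ _ (by
    rw [List.length_map, List.length_range]; exact idx_lt h1 h4), List.getElem_map,
    List.getElem_range, hC a h1 j h4, List.getD_eq_getElem _ _ h2, List.getD_eq_getElem _ _ h5]

theorem lg_le_lam {α : Type} [TEnc α] (a : α) {B : ℕ} (h : (bits a).length ≤ B) :
    lg a ≤ lam B := by
  have h1 : (bits a).length < 2 ^ wd B := lt_wd (h.trans (le_NE B))
  have h2 : Nat.log 2 (bits a).length < wd B := by
    refine Nat.log_lt_of_lt_pow ?_ h1
    rw [bits_length]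
    exact (sz_pos a).ne'
  unfold lg lam
  omega

theorem inWs_of_reduces {Φ : ℕ → List Bool → Oracle → Prop} {D E : Oracle} (hE : TGood Φ D E)
    (i : ℕ) {α : Type} [TEnc α] {κ : α → ℕ} {P : α → Prop}
    (h : Reduces (Φ i) (join D E) κ P) : InWs 1 (join D E) κ P := by
  obtain ⟨π, g, r, M, hπ, hg, h⟩ := h
  -- the input of the second part
  let zz : α → List Bool := fun a => pairBits (r a) (pairBits (pairBits (π (κ a))
    (List.replicate (g (κ a) + 1) true)) (bits a))
  let K : α → TKey := fun a => zK i (zz a)
  have hlg : ∀ a : α, 1 ≤ lg a := fun a => Nat.le_add_left _ _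
  have e1 : ∀ a, zq (zz a) = g (κ a) * lg a := by
    intro a
    unfold zq
    simp only [zz, unpair_pairBits, List.length_tail, List.length_replicate]
    rfl
  have e2 : ∀ a, zh (zz a) = g (κ a) + 1 := by
    intro a
    unfold zh
    simp only [zz, unpair_pairBits, List.length_replicate]
  have e3 : ∀ a, (unpair (unpair (zz a)).2).2 = bits a := by
    intro a
    simp only [zz, unpair_pairBits]
  have e4 : ∀ a, (unpair (zz a)).1 = r a := by
    intro a
    simp only [zz, unpair_pairBits]
  have hK : ∀ a, (K a).Ok := fun a => by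
    have h1 := hlg a
    refine ⟨?_, ?_, ?_⟩
    · show (znm i (zz a)).length + 1 < zB i (zz a)
      unfold zB
      omega
    · show 1 ≤ zh (zz a)
      rw [e2]; omega
    · show zq (zz a) < Len (zB i (zz a)) (zh (zz a))
      unfold Len
      rw [e1, e2]
      have h2 : lg a ≤ lam (zB i (zz a)) := lg_le_lam a (by
        unfold zB; rw [e3]; omega)
      nlinarith
  choose T hT1 hT2 hT3 using fun a => hE.code (K a) (hK a)
  -- the algorithm
  have hp : NPC.Poly (fun x : List Bool => pairBits (unpair (unpair x).1).1 (unpair x).2) :=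
    poly_pb ((NPC.Poly.fst poly_unpair).comp (NPC.Poly.fst poly_unpair))
      (NPC.Poly.snd poly_unpair)
  have hF : IsFP (join D E) (fun x => pairBits ((M.out (join D E)
      (pairBits (unpair (unpair x).1).1 (unpair x).2)).getD []) x) :=
    IsFP.pair (IsFP.comp (isFP_total (join D E) M) (IsFP.of_poly hp)) (IsFP.of_poly NPC.Poly.id)
  have hG : IsFP (join D E) (fun z => (fun p : List Bool × List Bool =>
      bits (instT (ztab i p.1 p.2) (zh p.1))) (z, (zqs i z).map (join D E))) :=
    IsFP.tt (poly_zqs i) (poly_bits (poly_instT (poly_ztab i)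
      (uPoly_zh.comp (NPC.Poly.fst NPC.Poly.id))))
  obtain ⟨M', hM'⟩ := IsFP.comp hG hF
  -- the length of the labels
  obtain ⟨b, hb⟩ := M.out_length
  obtain ⟨C, d, hCd⟩ := log_eval (Polynomial.C 2 * ((Polynomial.C 2 * Polynomial.X ^ 2 +
    Polynomial.C 3 * Polynomial.X + Polynomial.C 4 + b) ^ 2 + 1))
  have hlen : ∀ a, lam (zB i (zz a)) ≤
      4 * (C + d * (2 * ((π (κ a)).length + g (κ a) + i) + 1 + lg a)) + 8 := by
    intro a
    set p := (π (κ a)).length + g (κ a) + i with hp'
    have h1 : (r a).length ≤ b.eval (2 * (π (κ a)).length + 1 + (bits a).length) := by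
      have := hb _ _ _ (h a).1
      rwa [pairBits_len] at this
    have h2 : b.eval (2 * (π (κ a)).length + 1 + (bits a).length) ≤
        b.eval (2 * p + 1 + (bits a).length) := eval_mono b (by omega)
    have h3 : zB i (zz a) = 2 * i + 1 + (2 * (g (κ a) * lg a) + 1 + (r a).length) + 2 +
        (bits a).length := by
      unfold zB znm
      rw [e1, e3, e4, pairBits_len, pairBits_len, List.length_replicate, List.length_replicate]
    set N := 2 * p + 1 + (bits a).length with hN
    have h4 : lg a ≤ N := by
      unfold lg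
      have := Nat.log_le_self 2 (bits a).length
      omega
    have h5 : g (κ a) * lg a ≤ N * N := Nat.mul_le_mul (by omega) h4
    have h6 : zB i (zz a) ≤ 2 * N ^ 2 + 3 * N + 4 + b.eval N := by
      have : N ^ 2 = N * N := pow_two N
      omega
    have h7 : NE (zB i (zz a)) ≤ (Polynomial.C 2 * ((Polynomial.C 2 * Polynomial.X ^ 2 +
        Polynomial.C 3 * Polynomial.X + Polynomial.C 4 + b) ^ 2 + 1)).eval N := by
      simp only [Polynomial.eval_mul, Polynomial.eval_add, Polynomial.eval_pow, Polynomial.eval_C,
        Polynomial.eval_X, Polynomial.eval_one]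
      unfold NE
      exact Nat.mul_le_mul_left _ (Nat.add_le_add_right (Nat.pow_le_pow_left h6 2) 1)
    have h8 := hCd p (bits a).length _ h7
    have h9 : wd (zB i (zz a)) = Nat.log 2 (NE (zB i (zz a))) + 1 :=
      (log_size (by unfold NE; omega)).symm
    unfold lam
    rw [h9]
    unfold lg
    omega
  refine ⟨fun k => pairBits (π k) (List.replicate (g k + 1) true),
    fun k => 4 * (C + d * (2 * ((π k).length + g k + i) + 1 + 1)) + 8 + (2 * (g k + 1) + 1),
    fun a => instT (T a) (g (κ a) + 1), M', ?_, ?_, fun a => ⟨?_, ?_, ?_, ?_, ?_⟩⟩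
  · exact computable_pairBits.comp hπ (computable_replicate.comp
      (computable_add hg (Computable.const 1)))
  · have c1 : Computable (fun k => (π k).length) := Computable.list_length.comp hπ
    have c2 : Computable (fun k => 2 * ((π k).length + g k + i) + 1 + 1) :=
      computable_add (computable_add (computable_mul (Computable.const 2)
        (computable_add (computable_add c1 hg) (Computable.const i))) (Computable.const 1))
        (Computable.const 1)
    exact computable_add (computable_add (computable_mul (Computable.const 4) (computable_add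
      (Computable.const C) (computable_mul (Computable.const d) c2))) (Computable.const 8))
      (computable_add (computable_mul (Computable.const 2) (computable_add hg
        (Computable.const 1))) (Computable.const 1))
  · rw [hM']
    beta_reduce
    rw [unpair_pairBits]
    dsimp only
    rw [unpair_pairBits]
    dsimp only
    rw [(h a).1, Option.getD_some]
    congr 1
    show bits (instT (ztab i (zz a) ((zqs i (zz a)).map (join D E))) (zh (zz a))) = _
    rw [e2]
    congr 2
    rw [← table_eq (hT1 a) (hT2 a)]
    unfold ztab zqs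
    rw [List.map_map]
    rfl
  · exact instT_isW (shape_ne (hT1 a)) _
  · rw [instT_param]
    beta_reduce
    omega
  · intro l hl
    have h1 : l.length = lam (zB i (zz a)) := (hT1 a).2 l hl
    rw [h1]
    refine (hlen a).trans ?_
    beta_reduce
    have h2 := hlg a
    generalize (π (κ a)).length + g (κ a) + i = p
    have h3 : (4 * (C + d * (2 * p + 1 + 1)) + 8 + (2 * (g (κ a) + 1) + 1)) * lg a =
        4 * (C * lg a) + 4 * (d * ((2 * p + 1) * lg a + lg a)) + 8 * lg a +
          (2 * (g (κ a) + 1) + 1) * lg a := by ring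
    rw [h3]
    have h4 : C ≤ C * lg a := Nat.le_mul_of_pos_right _ h2
    have h5 : 2 * p + 1 ≤ (2 * p + 1) * lg a := Nat.le_mul_of_pos_right _ h2
    have h6 : d * (2 * p + 1 + lg a) ≤ d * ((2 * p + 1) * lg a + lg a) :=
      Nat.mul_le_mul_left _ (by omega)
    omega
  · rw [instT_sat (shape_ne (hT1 a))]
    have h1 := hT3 a
    have h2 : (K a).h = g (κ a) + 1 := e2 a
    rw [h2] at h1
    rw [h1]
    show P a ↔ Φ i (unpair (zz a)).1 (upTo (zq (zz a)) (join D E))
    rw [e1, e4]
    exact (h a).2

end Pool.Agent.H681.TB
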