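import Pool.Agent.H681.OR.Defs

/-!
# The canonical problem in `W[1]`, and compressions
-/

set_option autoImplicit false

namespace Pool.Agent.H681.TB

open Pool.Agent.NPC Pool.Agent.H620R2.Gauge Pool.Agent.H681.OR

/-- The canonical problem in `W[1]` with short questions: given `a = (T, k)`, a list `T` of labels of
at most `8 (log |a| + 1)` bits and a number `k` (the parameter), is some concatenation of `k` labels
from the list in the oracle? -/
def TabP (A : Oracle) (a : List (List Bool) × ℕ) : Prop :=
  (∀ l ∈ a.1, l.length ≤ 8 * lg a) ∧
    ∃ u : List (List Bool), u.length = a.2 ∧ (∀ l ∈ u, l ∈ a.1) ∧ A u.flatten = true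

/-- The parameterized problem `P` has a nonuniform compression relative to the oracle `A`: in
polynomial time relative to `A`, with an arbitrary advice `π (κ a)` which depends on the parameter
only, `a` becomes a string `r a` with `|r a| ^ 3 ≤ h (κ a) * |a|` which decides whether `P a` holds,
by an arbitrary set `L`. -/
def InComp (A : Oracle) {α : Type} [TEnc α] (κ : α → ℕ) (P : α → Prop) : Prop :=
  ∃ (π : ℕ → List Bool) (h : ℕ → ℕ) (r : α → List Bool) (M : Alg) (L : Set (List Bool)),
    ∀ a, M.out A (pairBits (π (κ a)) (bits a)) = some (r a) ∧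
      (r a).length ^ 3 ≤ h (κ a) * (bits a).length ∧ (P a ↔ r a ∈ L)

end Pool.Agent.H681.TB
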