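import Pool.Agent.H681.TB.World

/-!
# Every system of commitments is respected by a good oracle
-/

set_option autoImplicit false

namespace Pool.Agent.H681.TB

open Pool.Agent.NPC Pool.Agent.H620R2.Gauge Pool.Agent.H681.OR
open Pool.Agent.TH678.GC (join)
open Pool.Agent.Y626.WC (cut cut_cut exists_self)

open Classical in
/-- the names of the relevant tables of level `(B, h)` -/
noncomputable def Rel (W : Data) (B h : ℕ) : Finset (List Bool) :=
  {[], [false]} ∪ (W.S.filter fun K => K.B = B ∧ K.h = h).image (fun K => true :: K.nm) ∪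
    if B = W.B₀ ∧ h = W.k then W.Tn.image (fun t => false :: true :: t) else ∅

theorem Rel_card (W : Data) (B h : ℕ) : (Rel W B h).card ≤ W.S.card + W.Tn.card + 2 := by
  classical
  unfold Rel
  have h1 : ({[], [false]} : Finset (List Bool)).card ≤ 2 := Finset.card_le_two
  have h2 : ((W.S.filter fun K => K.B = B ∧ K.h = h).image (fun K => true :: K.nm)).card ≤
      W.S.card := Finset.card_image_le.trans (Finset.card_filter_le _ _)
  have h3 : (if B = W.B₀ ∧ h = W.k then W.Tn.image (fun t => false :: true :: t)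
      else (∅ : Finset (List Bool))).card ≤ W.Tn.card := by
    split_ifs
    · exact Finset.card_image_le
    · simp
  refine (Finset.card_union_le _ _).trans ?_
  have h4 := Finset.card_union_le ({[], [false]} : Finset (List Bool))
    ((W.S.filter fun K => K.B = B ∧ K.h = h).image (fun K => true :: K.nm))
  omega

theorem nil_mem_Rel (W : Data) (B h : ℕ) : [] ∈ Rel W B h := by
  classical
  simp [Rel]

theorem false_mem_Rel (W : Data) (B h : ℕ) : [false] ∈ Rel W B h := by
  classical
  simp [Rel]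

theorem key_mem_Rel {W : Data} {K : TKey} (hK : K ∈ W.S) : true :: K.nm ∈ Rel W K.B K.h := by
  classical
  unfold Rel
  refine Finset.mem_union_left _ (Finset.mem_union_right _ (Finset.mem_image.2 ⟨K, ?_, rfl⟩))
  exact Finset.mem_filter.2 ⟨hK, rfl, rfl⟩

theorem tn_mem_Rel {W : Data} {t : List Bool} (ht : t ∈ W.Tn) :
    false :: true :: t ∈ Rel W W.B₀ W.k := by
  classical
  unfold Rel
  rw [if_pos ⟨rfl, rfl⟩]
  exact Finset.mem_union_right _ (Finset.mem_image.2 ⟨t, ht, rfl⟩)

theorem Rel_short {W : Data} {n₀ : ℕ} (hW : W.Ok n₀) {B h : ℕ} (hB : 3 ≤ B) {x : List Bool}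
    (hx : x ∈ Rel W B h) : x.length < B := by
  classical
  unfold Rel at hx
  rcases Finset.mem_union.1 hx with hx | hx
  · rcases Finset.mem_union.1 hx with hx | hx
    · rcases Finset.mem_insert.1 hx with rfl | hx
      · simp; omega
      · rw [Finset.mem_singleton] at hx
        subst hx
        simp; omega
    · obtain ⟨K, hK, rfl⟩ := Finset.mem_image.1 hx
      rw [Finset.mem_filter] at hK
      have h1 := (hW.ok K hK.1).1
      rw [hK.2.1] at h1
      rw [List.length_cons]
      exact h1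
  · split_ifs at hx with h1
    · obtain ⟨t, ht, rfl⟩ := Finset.mem_image.1 hx
      have := hW.tn t ht
      rw [h1.1, List.length_cons, List.length_cons]
      exact this
    · simp at hx

section

variable (Φ : ℕ → List Bool → Oracle → Prop) (D E₀ : Oracle) (n₀ : ℕ) (W : Data)
  (wit : ℕ → ℕ → List Bool → List ℕ)

/-- the status of the table `x` of level `(B, h)` -/
def stat (X : Oracle) (B h : ℕ) (x : List Bool) : Prop :=
  x = [] ∨ (∃ K ∈ W.S, K.B = B ∧ K.h = h ∧ x = true :: K.nm ∧ ttruth Φ D X K) ∨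
    (B = W.B₀ ∧ h = W.k ∧ ∃ t ∈ W.Tn, x = false :: true :: t ∧ W.Tv t)

open Classical in
/-- the table of the key `K` -/
noncomputable def tabW (X : Oracle) (K : TKey) : List (List Bool) :=
  if K ∈ W.S then tabl K.B (true :: K.nm) else tabOf Φ D X K

open Classical in
/-- the new oracle, defined by recursion on the length -/
noncomputable def tnewF (z : List Bool) (X : Oracle) : Bool :=
  if z.length < n₀ then E₀ z else
    match z with
    | [] => false
    | true :: c => decide (∃ (K : TKey) (a j : ℕ), K.Ok ∧ a < NE K.B ∧ j < lam K.B ∧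
        K.enc (a * lam K.B + j) = c ∧ ((tabW Φ D W X K).getD a []).getD j false = true)
    | false :: x => decide (false :: x ∈ W.Xs ∨ ∃ (B h : ℕ) (y : List Bool), 3 ≤ B ∧ 1 ≤ h ∧
        y ∈ Rel W B h ∧ stat Φ D W X B h y ∧ qst B y (wit B h y) = true :: false :: x)

end

section

variable {Φ : ℕ → List Bool → Oracle → Prop} {D E₀ : Oracle} {n₀ : ℕ} {W : Data}
  {wit : ℕ → ℕ → List Bool → List ℕ} {E : Oracle}

theorem tnew_low (hE : ∀ z, E z = tnewF Φ D E₀ n₀ W wit z (cut E z.length)) {z : List Bool}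
    (hz : z.length < n₀) : E z = E₀ z := by
  rw [hE]
  unfold tnewF
  rw [if_pos hz]

theorem tnew_code (hE : ∀ z, E z = tnewF Φ D E₀ n₀ W wit z (cut E z.length))
    {c : List Bool} (hc : n₀ ≤ c.length + 1) : E (true :: c) = true ↔
      ∃ (K : TKey) (a j : ℕ), K.Ok ∧ a < NE K.B ∧ j < lam K.B ∧ K.enc (a * lam K.B + j) = c ∧
        ((tabW Φ D W (cut E (c.length + 1)) K).getD a []).getD j false = true := by
  rw [hE]
  unfold tnewF
  rw [if_neg (by rw [List.length_cons]; omega)]
  simp only [List.length_cons, decide_eq_true_eq]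

theorem tnew_row (hE : ∀ z, E z = tnewF Φ D E₀ n₀ W wit z (cut E z.length))
    {x : List Bool} (hc : n₀ ≤ x.length + 1) : E (false :: x) = true ↔
      (false :: x ∈ W.Xs ∨ ∃ (B h : ℕ) (y : List Bool), 3 ≤ B ∧ 1 ≤ h ∧
        y ∈ Rel W B h ∧ stat Φ D W (cut E (x.length + 1)) B h y ∧
        qst B y (wit B h y) = true :: false :: x) := by
  rw [hE]
  unfold tnewF
  rw [if_neg (by rw [List.length_cons]; omega)]
  simp only [List.length_cons, decide_eq_true_eq]

theorem tnew_codes (hE : ∀ z, E z = tnewF Φ D E₀ n₀ W wit z (cut E z.length))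
    {K : TKey} (hK : K.Ok) (hl : n₀ ≤ K.len) :
    TCodes E K (tabW Φ D W (cut E K.len) K) := by
  intro a ha j hj
  have h1 := tnew_code hE (c := K.enc (a * lam K.B + j)) (by rw [K.enc_length]; exact hl)
  rw [K.enc_length] at h1
  have h2 : (∃ (K' : TKey) (a' j' : ℕ), K'.Ok ∧ a' < NE K'.B ∧ j' < lam K'.B ∧
      K'.enc (a' * lam K'.B + j') = K.enc (a * lam K.B + j) ∧
        ((tabW Φ D W (cut E K.len) K').getD a' []).getD j' false = true) ↔
      ((tabW Φ D W (cut E K.len) K).getD a []).getD j false = true := by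
    constructor
    · rintro ⟨K', a', j', _, ha', hj', h4, h5⟩
      obtain ⟨rfl, h6⟩ := TKey.enc_inj (idx_lt ha hj) h4.symm
      obtain ⟨rfl, rfl⟩ := idx_inj hj hj' h6
      exact h5
    · intro h
      exact ⟨K, a, j, hK, ha, hj, rfl, h⟩
  rw [h2] at h1
  exact Bool.eq_iff_iff.2 h1

/-- The satisfiability of the tables. -/
theorem tnew_tsat (hE : ∀ z, E z = tnewF Φ D E₀ n₀ W wit z (cut E z.length)) (hW : W.Ok n₀)
    (hwit : ∀ B h x, 3 ≤ B → 1 ≤ h → n₀ < Len B h → x ∈ Rel W B h →
      (wit B h x).length = h ∧ (∀ a ∈ wit B h x, a < NE B) ∧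
        (qst B x (wit B h x)).tail ∉ W.Q ∧ ∀ x' ∈ Rel W B h, x' ≠ x → ∀ as',
          qst B x' as' ≠ qst B x (wit B h x))
    {B h : ℕ} (hB : 3 ≤ B) (hh : 1 ≤ h) (hn : n₀ < Len B h) {x : List Bool}
    (hx : x ∈ Rel W B h) (hlow : ∀ B' h' y, 3 ≤ B' → 1 ≤ h' → Len B' h' ≤ n₀ → y ∈ Rel W B' h' →
      (wit B' h' y).length = h') :
    TSat (join D E) (tabl B x) h ↔ stat Φ D W (cut E (Len B h - 1)) B h x := by
  rw [tsat_tabl]
  have hlen : ∀ as : List ℕ, as.length = h → (qst B x as).length = Len B h := fun as ha => by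
    rw [qst_length, ha]; rfl
  constructor
  · rintro ⟨as, h1, h2, h3⟩
    have h0 : as ≠ [] := by
      rintro rfl
      rw [List.length_nil] at h1
      omega
    obtain ⟨z, hz⟩ := qst_head (B := B) (x := x) h0
    have hl := hlen as h1
    rw [hz] at h3 hl
    have h4 : E (false :: (true :: z)) = true := h3
    rw [List.length_cons, List.length_cons] at hl
    rw [tnew_row hE (by omega)] at h4
    rcases h4 with h4 | ⟨B', h', y, h5, h6, h7, h8, h9⟩
    · obtain ⟨_, x', hx'⟩ := hW.xs _ h4
      simp at hx'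
    · have h10 : qst B x as = qst B' y (wit B' h' y) := by rw [hz, h9]
      obtain ⟨rfl, h11⟩ := qst_inj_B h0 h10
      have h12 : (wit B h' y).length = h' := by
        by_cases h13 : n₀ < Len B h'
        · exact (hwit B h' y h5 h6 h13 h7).1
        · exact hlow B h' y h5 h6 (not_lt.1 h13) h7
      have h13 : h' = h := by omega
      subst h13
      have h14 : y = x := by
        by_contra hne
        exact (hwit B h' y h5 h6 hn h7).2.2.2 x hx (fun e => hne e.symm) as h10
      subst h14
      have e : (true :: z).length + 1 = Len B h' - 1 := by omega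
      rw [e] at h8
      exact h8
  · intro h4
    obtain ⟨h1, h2, _, _⟩ := hwit B h x hB hh hn hx
    refine ⟨wit B h x, h1, h2, ?_⟩
    have h0 : wit B h x ≠ [] := by
      intro e
      rw [e, List.length_nil] at h1
      omega
    obtain ⟨z, hz⟩ := qst_head (B := B) (x := x) h0
    have hl := hlen _ h1
    rw [hz] at hl ⊢
    show E (false :: (true :: z)) = true
    rw [List.length_cons, List.length_cons] at hl
    rw [tnew_row hE (by omega)]
    have e : (true :: z).length + 1 = Len B h - 1 := by omega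
    rw [e]
    exact Or.inr ⟨B, h, x, hB, hh, hx, h4, hz⟩

end

/-- The existence of good oracles which respect the commitments. -/
theorem exists_tworld (Φ : ℕ → List Bool → Oracle → Prop) (D E₀ : Oracle) (n₀ : ℕ) (h6 : 6 ≤ n₀)
    (hE₀ : TGoodB Φ D n₀ E₀) (W : Data) (hW : W.Ok n₀) (hB₀ : n₀ < Len W.B₀ W.k) :
    ∃ E, TGood Φ D E ∧ TCompat Φ D E₀ n₀ W.S W.Q E ∧
      (∀ x, n₀ ≤ x.length + 2 → (E (false :: false :: x) = true ↔ false :: false :: x ∈ W.Xs)) ∧
      (∀ t ∈ W.Tn, (TSat (join D E) (tabl W.B₀ (false :: true :: t)) W.k ↔ W.Tv t)) := by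
  classical
  -- the witnesses
  have hw : ∃ wit : ℕ → ℕ → List Bool → List ℕ, ∀ B h x, 3 ≤ B → 1 ≤ h → x ∈ Rel W B h →
      (wit B h x).length = h ∧ (n₀ < Len B h → (∀ a ∈ wit B h x, a < NE B) ∧
        (qst B x (wit B h x)).tail ∉ W.Q ∧ ∀ x' ∈ Rel W B h, x' ≠ x → ∀ as',
          qst B x' as' ≠ qst B x (wit B h x)) := by
    have : ∀ B h x, ∃ as : List ℕ, 3 ≤ B → 1 ≤ h → x ∈ Rel W B h →
        as.length = h ∧ (n₀ < Len B h → (∀ a ∈ as, a < NE B) ∧
        (qst B x as).tail ∉ W.Q ∧ ∀ x' ∈ Rel W B h, x' ≠ x → ∀ as',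
          qst B x' as' ≠ qst B x as) := by
      intro B h x
      by_cases hc : 3 ≤ B ∧ 1 ≤ h ∧ n₀ < Len B h ∧ x ∈ Rel W B h
      · obtain ⟨hB, hh, hn, hx⟩ := hc
        have hcount := hW.count B h hB hh hn
        have hRc := Rel_card W B h
        obtain ⟨as, h1, h2, h3, h4⟩ := exists_private (h := h) (by omega : 2 ≤ B)
          (Rel_short hW hB hx) ((Rel W B h).erase x) (fun x' hx' =>
            ⟨Rel_short hW hB (Finset.mem_of_mem_erase hx'), Finset.ne_of_mem_erase hx'⟩) W.Q (by
            have := Finset.card_erase_le (a := x) (s := Rel W B h)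
            omega)
        exact ⟨as, fun _ _ _ => ⟨h1, fun _ => ⟨h2, h3, fun x' hx' hne =>
          h4 x' (Finset.mem_erase.2 ⟨hne, hx'⟩)⟩⟩⟩
      · refine ⟨List.replicate h 0, fun hB hh hx => ⟨List.length_replicate, fun hn => ?_⟩⟩
        exact absurd ⟨hB, hh, hn, hx⟩ hc
    choose wit h using this
    exact ⟨wit, h⟩
  obtain ⟨wit, hwit⟩ := hw
  obtain ⟨E, hE⟩ := exists_self (tnewF Φ D E₀ n₀ W wit)
  have hlow : Agree n₀ E₀ E := fun z hz => (tnew_low hE hz).symm
  have hts : ∀ {B h : ℕ}, 3 ≤ B → 1 ≤ h → n₀ < Len B h → ∀ {x : List Bool}, x ∈ Rel W B h →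
      (TSat (join D E) (tabl B x) h ↔ stat Φ D W (cut E (Len B h - 1)) B h x) :=
    fun hB hh hn _ hx => tnew_tsat hE hW (fun B h x hB hh hn hx =>
      ⟨(hwit B h x hB hh hx).1, (hwit B h x hB hh hx).2 hn⟩) hB hh hn hx
      (fun B h y hB hh _ hy => (hwit B h y hB hh hy).1)
  -- the status of the tables
  have hst : ∀ K ∈ W.S, (TSat (join D E) (tabl K.B (true :: K.nm)) K.h ↔ ttruth Φ D E K) := by
    intro K hK
    have hok := hW.ok K hK
    rw [hts hok.three hok.2.1 (hW.lev K hK) (key_mem_Rel hK)]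
    have ha : Agree K.q (cut E (Len K.B K.h - 1)) E :=
      (agree_cut E _).mono (by have := hok.2.2; omega)
    rw [← ttruth_congr ha]
    unfold stat
    constructor
    · rintro (h1 | ⟨K', h1, h2, h3, h4, h5⟩ | ⟨_, _, t, _, h1, _⟩)
      · simp at h1
      · rw [List.cons.injEq] at h4
        have h7 : K = K' := by
          have h8 := h4.2
          unfold TKey.nm at h8
          obtain ⟨e1, e2⟩ := pairBits_inj' h8
          obtain ⟨e3, e4⟩ := pairBits_inj' e2
          have e5 : K.i = K'.i := by simpa using congrArg List.length e1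
          have e6 : K.q = K'.q := by simpa using congrArg List.length e3
          obtain ⟨i, v, q, B, t⟩ := K
          obtain ⟨i', v', q', B', t'⟩ := K'
          dsimp only at *
          subst e5 e6 e4 h2 h3
          rfl
        subst h7
        exact h5
      · simp at h1
    · intro h
      exact Or.inr (Or.inl ⟨K, hK, rfl, rfl, rfl, h⟩)
  have hstT : ∀ t ∈ W.Tn, (TSat (join D E) (tabl W.B₀ (false :: true :: t)) W.k ↔ W.Tv t) := by
    intro t ht
    have h3 : 3 ≤ W.B₀ := by have := hW.tn t ht; omega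
    have hk : 1 ≤ W.k := by
      by_contra hk
      have : W.k = 0 := by omega
      unfold Len at hB₀
      rw [this] at hB₀
      omega
    rw [hts h3 hk hB₀ (tn_mem_Rel ht)]
    unfold stat
    constructor
    · rintro (h1 | ⟨K', _, _, _, h1, _⟩ | ⟨_, _, t', h1, h2, h3⟩)
      · simp at h1
      · simp at h1
      · simp only [List.cons.injEq, true_and] at h2
        rw [h2]
        exact h3
    · intro h
      exact Or.inr (Or.inr ⟨rfl, rfl, t, ht, rfl, h⟩)
  have hyes : ∀ B h, 3 ≤ B → 1 ≤ h → ∃ T, Shape B T ∧ TSat (join D E) T h := by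
    intro B h hB hh
    by_cases hn : Len B h ≤ n₀
    · obtain ⟨T, h1, h2⟩ := hE₀.yes B h hB hh hn
      exact ⟨T, h1, (tsat_congr h1 hlow hn).1 h2⟩
    · exact ⟨tabl B [], tabl_shape B _, (hts hB hh (not_le.1 hn) (nil_mem_Rel W B h)).2
        (Or.inl rfl)⟩
  have hno : ∀ B h, 3 ≤ B → 1 ≤ h → ∃ T, Shape B T ∧ ¬ TSat (join D E) T h := by
    intro B h hB hh
    by_cases hn : Len B h ≤ n₀
    · obtain ⟨T, h1, h2⟩ := hE₀.no B h hB hh hn
      exact ⟨T, h1, fun h3 => h2 ((tsat_congr h1 hlow hn).2 h3)⟩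
    · refine ⟨tabl B [false], tabl_shape B _, ?_⟩
      rw [hts hB hh (not_le.1 hn) (false_mem_Rel W B h)]
      rintro (h1 | ⟨K', _, _, _, h1, _⟩ | ⟨_, _, t', _, h1, _⟩)
      · simp at h1
      · simp at h1
      · simp at h1
  -- the tables of the keys
  have htabN : ∀ K, K ∉ W.S → tabW Φ D W (cut E K.len) K = tabOf Φ D E K := by
    intro K hK
    unfold tabW
    rw [if_neg hK]
    exact tabOf_congr (n := Len K.B K.h) ((agree_cut E _).mono K.Len_lt.le) le_rfl
  have htabS : ∀ K ∈ W.S, ∀ X, tabW Φ D W X K = tabl K.B (true :: K.nm) := by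
    intro K hK X
    unfold tabW
    rw [if_pos hK]
  refine ⟨E, ⟨hyes, hno, fun K hK => ?_, ?_⟩, ⟨hlow, ?_, ?_, ?_, ?_⟩, ?_, hstT⟩
  · have hl := K.Len_lt
    by_cases h : K.len < n₀
    · obtain ⟨T, h1, h2, h3⟩ := hE₀.code K hK h
      refine ⟨T, h1, (tcodes_congr hlow h).1 h2, ?_⟩
      rw [← tsat_congr h1 hlow (by omega), h3,
        ttruth_congr (hlow.mono (by have := hK.2.2; omega))]
    · rw [not_lt] at h
      by_cases hex : K ∈ W.S
      · refine ⟨_, tabl_shape _ _, ?_, hst K hex⟩
        have := tnew_codes hE hK h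
        rwa [htabS K hex] at this
      · obtain ⟨h1, h2⟩ := tabOf_spec hK (hyes _ _ hK.three hK.2.1) (hno _ _ hK.three hK.2.1)
        refine ⟨_, h1, ?_, h2⟩
        have := tnew_codes hE hK h
        rwa [htabN K hex] at this
  · rw [← hlow oneStr (by show 5 < n₀; omega)]
    exact hE₀.one
  · intro q hq
    obtain ⟨h1, x, rfl⟩ := hW.q q hq
    rw [List.length_cons] at h1
    rw [Bool.eq_false_iff]
    intro h
    rw [tnew_row hE h1] at h
    rcases h with h | ⟨B, t, y, h2, h3, h4, h5, h7⟩
    · exact hW.disj _ h hq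
    · have h8 := (hwit B t y h2 h3 h4).1
      have h9 : n₀ < Len B t := by
        have := congrArg List.length h7
        rw [qst_length, h8, List.length_cons, List.length_cons] at this
        have e : Len B t = t * lam B := rfl
        omega
      apply ((hwit B t y h2 h3 h4).2 h9).2.1
      rw [h7]
      exact hq
  · intro K hK
    have h1 := hW.lev K hK
    have h2 := K.Len_lt
    have := tnew_codes hE (hW.ok K hK) (by omega)
    rwa [htabS K hK] at this
  · intro c hc' hno'
    rw [Bool.eq_false_iff]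
    intro h
    rw [tnew_code hE hc'] at h
    obtain ⟨K, a, j, h1, h2, h3, h4, _⟩ := h
    exact hno' ⟨K, a, j, h1, h2, h3, h4⟩
  · intro K hK hm hl
    have hex : K ∉ W.S := fun h => absurd (hW.lev K h) (not_lt.2 hm)
    have := tnew_codes hE hK hl
    rwa [htabN K hex, ← tabOf_congr hlow hm] at this
  · intro x hx
    rw [tnew_row hE (by rw [List.length_cons]; omega)]
    constructor
    · rintro (h | ⟨B, t, y, h2, h3, h4, _, h7⟩)
      · exact h
      · have h8 := (hwit B t y h2 h3 h4).1
        have h9 : wit B t y ≠ [] := by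
          intro e
          rw [e, List.length_nil] at h8
          omega
        obtain ⟨z, hz⟩ := qst_head (B := B) (x := y) h9
        rw [hz] at h7
        simp at h7
    · exact Or.inl

end Pool.Agent.H681.TB
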