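import Pool.Agent.H681.TB.Run
import Pool.Agent.H681.TB.Defs
import Pool.Agent.H681.OR.Stage

/-!
# The limit of the construction
-/

set_option autoImplicit false

namespace Pool.Agent.H681.TB

open Pool.Agent.NPC Pool.Agent.H620R2.Gauge Pool.Agent.H681.OR
open Pool.Agent.TH678.GC (join)
open Pool.Agent.Y626.WC (cut cut_cut exists_self)

/-! ### Numbers -/

theorem two_pow_wd (B : ℕ) : 2 ^ wd B ≤ 2 * NE B := by
  have h1 : wd B ≠ 0 := by
    have : 0 < NE B := by unfold NE; omega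
    exact (Nat.size_pos.2 this).ne'
  have h2 : 2 ^ (wd B - 1) ≤ NE B := Nat.lt_size.1 (by unfold wd at h1 ⊢; omega)
  have h3 : 2 ^ wd B = 2 * 2 ^ (wd B - 1) := by
    rw [← pow_succ']
    congr 1
    omega
  omega

theorem len_le {B h : ℕ} (hB : 3 ≤ B) : 2 ^ Len B h ≤ (B ^ h) ^ 16 := by
  have h1 : 2 ^ lam B ≤ B ^ 16 := by
    have h2 : 2 ^ lam B = (2 * 2 ^ wd B) ^ 4 := by
      unfold lam
      rw [mul_pow, ← pow_mul, ← pow_add]
      ring_nf
    rw [h2]
    have h3 : 2 * 2 ^ wd B ≤ B ^ 4 := by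
      have h4 := two_pow_wd B
      unfold NE at h4
      have h5 : 9 ≤ B ^ 2 := by nlinarith
      have h6 : B ^ 4 = B ^ 2 * B ^ 2 := by ring
      rw [h6]
      nlinarith
    calc (2 * 2 ^ wd B) ^ 4 ≤ (B ^ 4) ^ 4 := Nat.pow_le_pow_left h3 4
      _ = B ^ 16 := by rw [← pow_mul]
  unfold Len
  calc 2 ^ (h * lam B) = (2 ^ lam B) ^ h := by rw [← pow_mul, mul_comm]
    _ ≤ (B ^ 16) ^ h := Nat.pow_le_pow_left h1 h
    _ = (B ^ h) ^ 16 := by rw [← pow_mul, ← pow_mul, mul_comm]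

theorem small_of {n₀ c : ℕ} (h : c ^ 16 ≤ 2 ^ n₀) : Small n₀ c := by
  intro B t hB _ hn
  have h1 : c ^ 16 ≤ (B ^ t) ^ 16 :=
    h.trans ((Nat.pow_le_pow_right (by norm_num) hn.le).trans (len_le hB))
  exact (Nat.pow_le_pow_iff_left (by norm_num)).1 h1

theorem exists_bigA (p : Polynomial ℕ) (k L : ℕ) (hk : 8 * p.natDegree < k) : ∃ B, ∀ b, B ≤ b →
    ∀ l, l ≤ L * 2 ^ b → p.eval l < 2 ^ (k * (b + 1)) ∧
      (p.eval l + 3) ^ 16 ≤ 2 ^ (2 * (k * (b + 1)) - 1) := by
  set d := p.natDegree with hd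
  obtain ⟨C, hC⟩ := eval_le_pow p (le_refl d)
  set K := C * (L + 1) ^ d + 3 with hK
  refine ⟨8 * K, fun b hb l hl => ?_⟩
  have h1 : 1 ≤ 2 ^ b := Nat.one_le_two_pow
  have h2 : p.eval l ≤ p.eval ((L + 1) * 2 ^ b) := eval_mono p (hl.trans (by nlinarith))
  have h3 := hC ((L + 1) * 2 ^ b) (by nlinarith)
  have h4 : C * ((L + 1) * 2 ^ b) ^ d = C * (L + 1) ^ d * 2 ^ (b * d) := by
    rw [mul_pow, ← pow_mul]; ring
  have h6 : 1 ≤ 2 ^ (b * d) := Nat.one_le_two_pow
  have h7 : p.eval l + 3 ≤ K * 2 ^ (b * d) := by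
    have : K * 2 ^ (b * d) = C * (L + 1) ^ d * 2 ^ (b * d) + 3 * 2 ^ (b * d) := by rw [hK]; ring
    omega
  have h8 : p.eval l + 3 ≤ 2 ^ (K + b * d) := by
    rw [pow_add]
    exact h7.trans (Nat.mul_le_mul_right _ Nat.lt_two_pow_self.le)
  have h9 : K + b * d ≤ k * (b + 1) := by
    have : (8 * d + 1) * (b + 1) ≤ k * (b + 1) := Nat.mul_le_mul_right _ hk
    nlinarith
  refine ⟨?_, ?_⟩
  · have := Nat.pow_le_pow_right (show 0 < 2 by norm_num) h9
    omega
  · calc (p.eval l + 3) ^ 16 ≤ (2 ^ (K + b * d)) ^ 16 := Nat.pow_le_pow_left h8 16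
      _ = 2 ^ ((K + b * d) * 16) := by rw [← pow_mul]
      _ ≤ _ := by
        refine Nat.pow_le_pow_right (by norm_num) ?_
        have : (8 * d + 1) * (b + 1) ≤ k * (b + 1) := Nat.mul_le_mul_right _ hk
        have e : (8 * d + 1) * (b + 1) = 8 * (b * d) + b + 8 * d + 1 := by ring
        omega

theorem wd_le_four {i : ℕ} (hi : 1 ≤ i) : wd (4 ^ i) ≤ 4 * i + 2 := by
  refine Nat.size_le.2 ?_
  unfold NE
  have h1 : (4 ^ i) ^ 2 = 2 ^ (4 * i) := by
    rw [show (4 : ℕ) = 2 ^ 2 by norm_num, ← pow_mul, ← pow_mul]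
    congr 1
    ring
  rw [h1]
  have h2 : 2 ^ 1 ≤ 2 ^ (4 * i) := Nat.pow_le_pow_right (by norm_num) (by omega)
  have h3 : 2 ^ (4 * i + 2) = 4 * 2 ^ (4 * i) := by rw [pow_add]; ring
  rw [h3]
  generalize 2 ^ (4 * i) = X at *
  omega

theorem succ_sq_le (i : ℕ) : (i + 1) * (i + 1) ≤ 4 ^ i := by
  have h1 : i + 1 ≤ 2 ^ i := Nat.lt_two_pow_self
  have h2 : (4 : ℕ) ^ i = 2 ^ i * 2 ^ i := by
    rw [show (4 : ℕ) = 2 * 2 by norm_num, mul_pow]
  rw [h2]
  exact Nat.mul_le_mul h1 h1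

theorem size_inst {i : ℕ} (hi : 1 ≤ i) (k : ℕ) (x : List Bool) :
    (bits (tabl (4 ^ i) x, k)).length ≤ (4 ^ i) ^ 2 * ((256 + 4 * k) * (i + 1)) := by
  rw [bits_length, sz_pair]
  have h1 := sz_le_length_mul (tabl (4 ^ i) x) (64 * i + 49) (by
    intro l hl
    have h2 := sz_listBool_le l
    have h3 := (tabl_shape (4 ^ i) x).2 l hl
    have h4 := wd_le_four hi
    unfold lam at h3
    omega)
  rw [(tabl_shape (4 ^ i) x).1] at h1
  have h5 : sz k ≤ 4 * k + 1 := by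
    have := sz_nat_le k
    have := Poly.size_le_self k
    omega
  unfold NE at h1
  have h6 : 1 ≤ (4 ^ i) ^ 2 := Nat.one_le_pow _ _ (by positivity)
  set X := (4 ^ i) ^ 2 with hX
  have h7 : 2 * (X + 1) * (64 * i + 49 + 1) ≤ 4 * X * (64 * i + 50) := by nlinarith
  have h8 : X * ((256 + 4 * k) * (i + 1)) = X * (256 * i) + X * 256 + X * (4 * k * i) +
      X * (4 * k) := by ring
  have h9 : 4 * X * (64 * i + 50) = X * (256 * i) + X * 200 := by ring
  have h10 : 4 * k ≤ X * (4 * k) := Nat.le_mul_of_pos_left _ h6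
  omega

theorem lg_inst (B k : ℕ) (x : List Bool) : ∀ l ∈ tabl B x,
    l.length ≤ 8 * lg (tabl B x, k) := by
  intro l hl
  rw [(tabl_shape B x).2 l hl]
  unfold lg lam
  have h1 : NE B ≤ (bits (tabl B x, k)).length := by
    rw [bits_length, sz_pair]
    have := length_lt_sz (tabl B x)
    rw [(tabl_shape B x).1] at this
    omega
  have h2 : 0 < NE B := by unfold NE; omega
  have h3 : wd B ≤ Nat.log 2 (NE B) + 1 := by
    refine Nat.size_le.2 ?_
    exact Nat.lt_pow_succ_log_self (by norm_num) _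
  have h4 : Nat.log 2 (NE B) ≤ Nat.log 2 (bits (tabl B x, k)).length := Nat.log_mono_right h1
  have h5 : 1 ≤ wd B := Nat.size_pos.2 h2
  omega

theorem exists_bigB (p : Polynomial ℕ) (k s H : ℕ) (hk : 6 * p.natDegree < k) : ∃ I, ∀ i, I ≤ i →
    8 * H * ((256 + 4 * k) * (i + 1)) < 4 ^ i ∧
    ∀ l, l ≤ 2 * s + 1 + (4 ^ i) ^ 2 * ((256 + 4 * k) * (i + 1)) →
      (2 * p.eval l + 5) ^ 16 ≤ 2 ^ (Len (4 ^ i) k - 1) := by
  set d := p.natDegree with hd
  obtain ⟨C, hC⟩ := eval_le_pow p (le_refl d)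
  set L := 2 * s + 1 + (256 + 4 * k) with hL
  set K := 2 * (C * L ^ d) + 5 with hK
  refine ⟨8 * H * (256 + 4 * k) + K ^ 2, fun i hi => ⟨?_, fun l hl => ?_⟩⟩
  · have h1 := succ_sq_le i
    have h2 : 8 * H * (256 + 4 * k) < i + 1 := by omega
    have h3 : 8 * H * ((256 + 4 * k) * (i + 1)) = 8 * H * (256 + 4 * k) * (i + 1) := by ring
    rw [h3]
    exact lt_of_lt_of_le (Nat.mul_lt_mul_of_pos_right h2 (by omega)) h1
  · have hB1 : 1 ≤ 4 ^ i := Nat.one_le_pow _ _ (by norm_num)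
    have h1 : i + 1 ≤ 4 ^ i := by
      have := succ_sq_le i
      nlinarith
    generalize 4 ^ i = B at *
    have h2 : l ≤ L * B ^ 3 := by
      refine hl.trans ?_
      have h3 : B ^ 2 * ((256 + 4 * k) * (i + 1)) ≤ (256 + 4 * k) * B ^ 3 := by
        calc B ^ 2 * ((256 + 4 * k) * (i + 1)) ≤ B ^ 2 * ((256 + 4 * k) * B) := by gcongr
          _ = (256 + 4 * k) * B ^ 3 := by ring
      have h4 : 1 ≤ B ^ 3 := Nat.one_le_pow _ _ hB1
      have h5 : 2 * s + 1 ≤ (2 * s + 1) * B ^ 3 := Nat.le_mul_of_pos_right _ h4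
      have h6 : L * B ^ 3 = (2 * s + 1) * B ^ 3 + (256 + 4 * k) * B ^ 3 := by rw [hL]; ring
      omega
    have h7 : p.eval l ≤ p.eval (L * B ^ 3) := eval_mono p h2
    have h8 := hC (L * B ^ 3) (Nat.mul_pos (by omega) (Nat.one_le_pow _ _ hB1))
    have h9 : C * (L * B ^ 3) ^ d = C * L ^ d * B ^ (3 * d) := by
      rw [mul_pow, ← pow_mul]; ring
    have h10 : 1 ≤ B ^ (3 * d) := Nat.one_le_pow _ _ hB1
    have h11 : 2 * p.eval l + 5 ≤ K * B ^ (3 * d) := by
      have : K * B ^ (3 * d) = 2 * (C * L ^ d * B ^ (3 * d)) + 5 * B ^ (3 * d) := by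
        rw [hK]; ring
      omega
    have h12 : K ^ 2 ≤ B := by omega
    have h13 : B ^ 2 ≤ 2 ^ wd B := by
      have h14 : NE B < 2 ^ wd B := Nat.lt_size_self _
      unfold NE at h14
      omega
    have h15 : B ^ (8 * k) ≤ 2 ^ (Len B k - 1) := by
      have h16 : B ^ (8 * k) ≤ 2 ^ (wd B * (4 * k)) := by
        calc B ^ (8 * k) = (B ^ 2) ^ (4 * k) := by rw [← pow_mul]; ring_nf
          _ ≤ (2 ^ wd B) ^ (4 * k) := Nat.pow_le_pow_left h13 _
          _ = _ := by rw [← pow_mul]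
      refine h16.trans (Nat.pow_le_pow_right (by norm_num) ?_)
      unfold Len lam
      have : k * (4 * wd B + 4) = wd B * (4 * k) + 4 * k := by ring
      omega
    calc (2 * p.eval l + 5) ^ 16 ≤ (K * B ^ (3 * d)) ^ 16 := Nat.pow_le_pow_left h11 16
      _ = (K ^ 2) ^ 8 * B ^ (48 * d) := by rw [mul_pow, ← pow_mul, ← pow_mul]; ring_nf
      _ ≤ B ^ 8 * B ^ (48 * d) := Nat.mul_le_mul_right _ (Nat.pow_le_pow_left h12 8)
      _ = B ^ (8 + 48 * d) := by rw [← pow_add]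
      _ ≤ B ^ (8 * k) := Nat.pow_le_pow_right hB1 (by omega)
      _ ≤ _ := h15

section

variable (Φ : ℕ → List Bool → Oracle → Prop) (D : Oracle)

/-- The algorithm `M` with the advice `s` fails on some instance of width `k`. -/
def FailsMini (e : Alg × List Bool × ℕ) (E : Oracle) : Prop :=
  8 * e.1.p.natDegree < e.2.2 → ∃ (a : List Bool × List Bool) (b : Bool), width a = e.2.2 ∧
    (Mini (join D E) a.2 ↔ b = true) ∧ e.1.out (join D E) (pairBits e.2.1 (bits a)) ≠ some [b]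

/-- The algorithm `M` with the advice `s` is not a compression for the parameter `k`. -/
def FailsComp (e : Alg × List Bool × ℕ × ℕ) (E : Oracle) : Prop :=
  6 * e.1.p.natDegree < e.2.2.1 → ∃ a a' : List (List Bool) × ℕ, a.2 = e.2.2.1 ∧
    a'.2 = e.2.2.1 ∧ TabP (join D E) a ∧
    ((∀ z, e.1.out (join D E) (pairBits e.2.1 (bits a)) = some z →
      e.2.2.2 * (bits a).length < z.length ^ 3) ∨
      (e.1.out (join D E) (pairBits e.2.1 (bits a)) =
        e.1.out (join D E) (pairBits e.2.1 (bits a')) ∧ ¬ TabP (join D E) a'))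

variable {Φ D}

theorem exists_tgood : ∃ E, TGood Φ D E := by
  obtain ⟨E, h, _⟩ := exists_tworld Φ D (fun z => decide (z = oneStr)) 6 le_rfl
    ⟨fun B h h1 h2 h3 => absurd h3 (by
        unfold Len lam
        have h4 : 1 ≤ wd B := Nat.size_pos.2 (by unfold NE; omega)
        nlinarith), fun B h h1 h2 h3 => absurd h3 (by
        unfold Len lam
        have h4 : 1 ≤ wd B := Nat.size_pos.2 (by unfold NE; omega)
        nlinarith), fun K hK h => by
      have h1 := K.nm_pos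
      have h2 := hK.three
      unfold TKey.len at h
      omega, by simp⟩ ⟨∅, ∅, ∅, 3, 1, ∅, fun _ => True⟩
    ⟨by simp, by simp, by simp, by simp, by simp, by simp, fun B h hB hh _ => by
      simp only [Finset.card_empty]
      calc 0 + 0 + 0 + 3 = 3 ^ 1 := by norm_num
        _ ≤ B ^ 1 := Nat.pow_le_pow_left hB 1
        _ ≤ B ^ h := Nat.pow_le_pow_right (by omega) hh⟩
    (by
      show 6 < Len 3 1
      unfold Len lam
      have h4 : 1 ≤ wd 3 := Nat.size_pos.2 (by unfold NE; omega)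
      omega)
  exact ⟨E, h⟩

theorem failsMini_step (e : Alg × List Bool × ℕ) (E : Oracle) (n : ℕ) (hE : TGood Φ D E) :
    ∃ E', TGood Φ D E' ∧ Agree n E E' ∧ ∃ n', ∀ E'', Agree n' E' E'' → FailsMini D e E'' := by
  obtain ⟨M, s, k⟩ := e
  by_cases hk : 8 * M.p.natDegree < k
  swap
  · exact ⟨E, hE, fun z _ => rfl, 0, fun E'' _ h => absurd h hk⟩
  obtain ⟨B, hB⟩ := exists_bigA M.p k (2 * s.length + 4 * k + 8) hk
  set b := B + n + 5 with hb
  set m₀ := k * (b + 1) with hm₀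
  have hkb : b + 1 ≤ m₀ := Nat.le_mul_of_pos_left _ (by omega)
  let ys : List Bool := true :: false :: false :: List.replicate (m₀ - 3) true
  have hys : ys.length = m₀ := by
    simp only [ys, List.length_cons, List.length_replicate]; omega
  set a : List Bool × List Bool := (List.replicate (2 ^ b) true, ys) with ha
  have h1 := input_length s k b ys hys
  obtain ⟨h1a, h1b⟩ := hB b (by omega) _ h1
  obtain ⟨E', c, h2, h3, h4, h5⟩ := fool_mini (n₀ := 2 * m₀ - 1) (by omega) (hE.goodB _) M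
    (pairBits s (bits a)) ys (by rw [hys]; omega) ⟨_, rfl⟩ (by rw [hys]; exact h1a)
    (small_of h1b)
  obtain ⟨qb, hqb⟩ := M.out_local
  obtain ⟨Q, _, hQ1, hQ2⟩ := hqb (join D E') (pairBits s (bits a))
  refine ⟨E', h2, h3.mono (by omega), 2 * m₀ + qb.eval (pairBits s (bits a)).length, ?_⟩
  intro E'' hag _
  refine ⟨a, c, width_eq k b ys hys, ?_, ?_⟩
  · rw [← h4]
    exact (mini_congr hag (by show 2 * ys.length ≤ _; rw [hys]; omega)).symm
  · show M.out (join D E'') (pairBits s (bits a)) ≠ some [c]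
    rw [hQ2 (join D E'') fun q hq => (join_congr hag ((hQ1 q hq).trans (by omega))).symm]
    exact h5

theorem failsComp_step (e : Alg × List Bool × ℕ × ℕ) (E : Oracle) (n : ℕ) (hE : TGood Φ D E) :
    ∃ E', TGood Φ D E' ∧ Agree n E E' ∧ ∃ n', ∀ E'', Agree n' E' E'' → FailsComp D e E'' := by
  obtain ⟨M, s, k, H⟩ := e
  by_cases hk : 6 * M.p.natDegree < k
  swap
  · exact ⟨E, hE, fun z _ => rfl, 0, fun E'' _ h => absurd h hk⟩
  obtain ⟨I, hI⟩ := exists_bigB M.p k s.length H hk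
  set i := I + n + 5 with hi
  obtain ⟨hnum1, hnum2⟩ := hI i (by omega)
  have hBi := succ_sq_le i
  set B₀ := 4 ^ i with hB₀
  have hB20 : 36 + n ≤ B₀ := by nlinarith
  have heven : 2 * (B₀ / 2) = B₀ := by
    have : B₀ = 4 * 4 ^ (i - 1) := by
      rw [hB₀, ← pow_succ']
      congr 1
    omega
  set n₀ := Len B₀ k - 1 with hn₀
  have hLen : 8 ≤ Len B₀ k := by
    unfold Len lam
    have h4 : 1 ≤ wd B₀ := Nat.size_pos.2 (by unfold NE; omega)
    nlinarith
  have hnn : n ≤ n₀ := by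
    have h1 : n + 1 < 2 ^ wd B₀ := lt_wd (by have := le_NE B₀; omega)
    have h2 : i ≤ wd B₀ := by
      by_contra hcon
      have h3 : NE B₀ < 2 ^ wd B₀ := Nat.lt_size_self _
      have h4 : 2 ^ wd B₀ ≤ 2 ^ i := Nat.pow_le_pow_right (by norm_num) (by omega)
      have h5 : 2 ^ i ≤ 4 ^ i := Nat.pow_le_pow_left (by norm_num) i
      have h6 := le_NE B₀
      omega
    have h7 : wd B₀ ≤ Len B₀ k - 1 := by
      unfold Len lam
      have : 4 * wd B₀ + 4 ≤ k * (4 * wd B₀ + 4) := Nat.le_mul_of_pos_left _ (by omega)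
      omega
    omega
  let inst : List Bool → List (List Bool) × ℕ := fun t => (tabl B₀ (false :: true :: t), k)
  let inp : List Bool → List Bool := fun t => pairBits s (bits (inst t))
  have hinp : ∀ t, (inp t).length ≤ 2 * s.length + 1 +
      B₀ ^ 2 * ((256 + 4 * k) * (i + 1)) := by
    intro t
    simp only [inp]
    rw [pairBits_len]
    have : (bits (inst t)).length ≤ B₀ ^ 2 * ((256 + 4 * k) * (i + 1)) :=
      size_inst (by omega) k (false :: true :: t)
    omega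
  set c := M.p.eval (2 * s.length + 1 + B₀ ^ 2 * ((256 + 4 * k) * (i + 1))) with hc
  obtain ⟨E', t, t', h2, h3, ht, ht', h4, h5⟩ := fool_comp (n₀ := n₀) (by omega) (hE.goodB _) M
    B₀ k (B₀ / 2 + 2) (B₀ / 2) c (by omega) (by omega) le_rfl inp
    (fun t _ => eval_mono _ (hinp t)) (small_of (hnum2 _ le_rfl))
  have hlong : ∀ z : List Bool, B₀ / 2 < z.length →
      H * (bits (inst t)).length < z.length ^ 3 := by
    intro z hz
    have h6 : (bits (inst t)).length ≤ B₀ ^ 2 * ((256 + 4 * k) * (i + 1)) :=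
      size_inst (by omega) k (false :: true :: t)
    have h7 : B₀ ≤ 2 * z.length := by omega
    have h8 : H * (bits (inst t)).length ≤ H * (B₀ ^ 2 * ((256 + 4 * k) * (i + 1))) :=
      Nat.mul_le_mul_left _ h6
    have h9 : 8 * (H * (B₀ ^ 2 * ((256 + 4 * k) * (i + 1)))) < B₀ ^ 2 * B₀ := by
      have : 8 * (H * (B₀ ^ 2 * ((256 + 4 * k) * (i + 1)))) =
          B₀ ^ 2 * (8 * H * ((256 + 4 * k) * (i + 1))) := by ring
      rw [this]
      exact Nat.mul_lt_mul_of_pos_left hnum1 (by positivity)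
    have h10 : B₀ ^ 2 * B₀ ≤ (2 * z.length) ^ 3 := by
      calc B₀ ^ 2 * B₀ = B₀ ^ 3 := by ring
        _ ≤ _ := Nat.pow_le_pow_left h7 3
    have h11 : (2 * z.length) ^ 3 = 8 * z.length ^ 3 := by ring
    omega
  obtain ⟨qb, hqb⟩ := M.out_local
  obtain ⟨Q, _, hQ1, hQ2⟩ := hqb (join D E') (inp t)
  obtain ⟨Q', _, hQ1', hQ2'⟩ := hqb (join D E') (inp t')
  refine ⟨E', h2, h3.mono hnn, Len B₀ k + qb.eval (inp t).length + qb.eval (inp t').length, ?_⟩
  intro E'' hag _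
  have e1 : M.out (join D E'') (inp t) = M.out (join D E') (inp t) :=
    hQ2 (join D E'') fun q hq => (join_congr hag ((hQ1 q hq).trans (by omega))).symm
  have e2 : M.out (join D E'') (inp t') = M.out (join D E') (inp t') :=
    hQ2' (join D E'') fun q hq => (join_congr hag ((hQ1' q hq).trans (by omega))).symm
  refine ⟨inst t, inst t', rfl, rfl, ⟨lg_inst B₀ k _, ?_⟩, ?_⟩
  · exact (tsat_congr (tabl_shape _ _) hag (by show Len B₀ k ≤ _; omega)).1 h4
  · rcases h5 with h5 | ⟨h5, h6⟩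
    · left
      intro z hz
      have hz' : M.out (join D E'') (inp t) = some z := hz
      rw [e1] at hz'
      exact hlong z (h5 z hz')
    · right
      refine ⟨?_, fun h7 => h6 ?_⟩
      · show M.out (join D E'') (inp t) = M.out (join D E'') (inp t')
        rw [e1, e2, h5]
      · exact (tsat_congr (tabl_shape _ _) hag (by show Len B₀ k ≤ _; omega)).2 h7.2

/-- The oracle. -/
theorem exists_toracle (Φ : ℕ → List Bool → Oracle → Prop) (D : Oracle) :
    ∃ E, TGood Φ D E ∧ (∀ e, FailsMini D e E) ∧ ∀ e, FailsComp D e E := by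
  have hA : Nonempty Alg :=
    ⟨⟨fun _ => [], Pool.Agent.H622R2.polyTime_of_poly_list (NPC.Poly.const []), 0⟩⟩
  obtain ⟨f, hf⟩ := exists_surjective_nat ((Alg × List Bool × ℕ) ⊕ (Alg × List Bool × ℕ × ℕ))
  obtain ⟨E, h1, h2⟩ := exists_limit (TGood Φ D)
    (fun i E => Sum.elim (fun e => FailsMini D e E) (fun e => FailsComp D e E) (f i))
    exists_tgood (fun E h => TGood.of_local h) (fun i E n hE => by
      rcases f i with e | e
      · exact failsMini_step e E n hE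
      · exact failsComp_step e E n hE)
  refine ⟨E, h1, fun e => ?_, fun e => ?_⟩
  · obtain ⟨i, hi⟩ := hf (Sum.inl e)
    have := h2 i
    rw [hi] at this
    exact this
  · obtain ⟨i, hi⟩ := hf (Sum.inr e)
    have := h2 i
    rw [hi] at this
    exact this

end

end Pool.Agent.H681.TB
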