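import Pool.Agent.H681.TB.Code
import Pool.Agent.H681.OR.LogSat

/-!
# `W[1]` is contained in `W[P]`
-/

set_option autoImplicit false

namespace Pool.Agent.H681.TB

open Pool.Agent.NPC Pool.Agent.H620R2.Gauge Pool.Agent.H622R2 Pool.Agent.Y626.WG
open Pool.Agent.H681.OR
open Pool.Agent.TH678.WP (uPoly_log poly_replicate computable_pairBits computable_replicate log_size)
open Pool.Agent.Y626.WC (isFP_total InFPT sat_one)

/-! ### Instances and guesses -/

/-- instances as tuples -/
abbrev ITup : Type :=
  List (List Bool) × List (List (ℕ × ℕ)) × List ℕ × List (ℕ × List ℕ) × List (List Bool)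

/-- the tuple of an instance -/
def tup (I : Inst) : ITup := (I.labels, I.rels, I.blocks, I.atoms, I.acc)

/-- the instance given by its code -/
def dI (z : List Bool) : ITup := (unbits ITup z).getD ([], [], [], [], [])

theorem poly_dI : NPC.Poly dI := Poly.optGetD poly_unbits (NPC.Poly.const _)

theorem dI_bits (I : Inst) : dI (bits I) = tup I := by
  show (unbits ITup (bits (tup I))).getD ([], [], [], [], []) = tup I
  rw [unbits_bits, Option.getD_some]

theorem bitsF_succ (w n : ℕ) : bitsF (w + 1) n = n.testBit 0 :: bitsF w (n / 2) := by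
  unfold bitsF
  rw [List.range_succ_eq_map, List.map_cons, List.map_map]
  congr 1
  refine List.map_congr_left fun i _ => ?_
  rw [Function.comp_apply, Nat.succ_eq_add_one, Nat.testBit_succ]

theorem valB_bitsF : ∀ (w n : ℕ), n < 2 ^ w → valB (bitsF w n) = n
  | 0, n, h => by
    have : n = 0 := by simpa using h
    subst this
    rfl
  | w + 1, n, h => by
    rw [bitsF_succ, valB_cons, valB_bitsF w (n / 2) (by rw [pow_succ] at h; omega)]
    rw [Nat.testBit_zero]
    rcases Nat.mod_two_eq_zero_or_one n with h1 | h1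
    · simp [h1]; omega
    · simp [h1]; omega

/-- the number in the field number `i` -/
def fld (b : ℕ) (x : List Bool) (i : ℕ) : ℕ :=
  valB ((List.range b).map fun j => x.getD (i * b + j) false)

/-- the guess -/
def vec (b s : ℕ) (x : List Bool) : List ℕ := (List.range s).map fun i => fld b x i

theorem poly_vec {α : Type} [TEnc α] {b s : α → ℕ} {x : α → List Bool} (hb : UPoly b)
    (hs : UPoly s) (hx : NPC.Poly x) : NPC.Poly (fun a => vec (b a) (s a) (x a)) := by
  unfold vec
  refine NPC.Poly.map (F := fun a i => fld (b a) (x a) i) hs.range ?_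
  unfold fld
  refine NPC.Poly.valBits (NPC.Poly.map (F := fun (p : α × ℕ) j =>
    (x p.1).getD (p.2 * b p.1 + j) false) (hb.comp (NPC.Poly.fst NPC.Poly.id)).range ?_)
  have f1 : NPC.Poly (fun p : (α × ℕ) × ℕ => p.1.1) := NPC.Poly.fst (NPC.Poly.fst NPC.Poly.id)
  exact NPC.Poly.getD (hx.comp f1) (NPC.Poly.add (NPC.Poly.mul (NPC.Poly.snd (NPC.Poly.fst
    NPC.Poly.id)) (hb.comp f1).toPoly) (NPC.Poly.snd NPC.Poly.id)) (NPC.Poly.const false)

theorem getD_flatMap (b : ℕ) : ∀ (v : List ℕ) (i j : ℕ) (hi : i < v.length), j < b →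
    (v.flatMap (bitsF b)).getD (i * b + j) false = (v[i]).testBit j
  | [], i, j, hi, _ => by simp at hi
  | a :: v, 0, j, _, hj => by
    rw [List.flatMap_cons, List.getD_append _ _ _ _ (by rw [bitsF_length]; omega),
      List.getD_eq_getElem _ _ (by rw [bitsF_length]; omega)]
    simp [bitsF]
  | a :: v, i + 1, j, hi, hj => by
    rw [List.flatMap_cons, List.getD_append_right _ _ _ _ (by rw [bitsF_length, Nat.succ_mul]; omega),
      bitsF_length]
    have e : (i + 1) * b + j - b = i * b + j := by rw [Nat.succ_mul]; omega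
    rw [e, getD_flatMap b v i j (by simpa using hi) hj, List.getElem_cons_succ]

theorem vec_flatMap {b : ℕ} {v : List ℕ} (hv : ∀ a ∈ v, a < 2 ^ b) :
    vec b v.length (v.flatMap (bitsF b)) = v := by
  refine List.ext_getElem (by simp [vec]) fun i h1 h2 => ?_
  unfold vec
  rw [List.getElem_map, List.getElem_range]
  unfold fld
  have h3 : ((List.range b).map fun j => (v.flatMap (bitsF b)).getD (i * b + j) false) =
      bitsF b v[i] := by
    unfold bitsF
    refine List.map_congr_left fun j hj => ?_
    exact getD_flatMap b v i j h2 (List.mem_range.1 hj)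
  rw [h3]
  exact valB_bitsF _ _ (hv _ (List.getElem_mem h2))

theorem flatMap_bitsF_length (b : ℕ) : ∀ v : List ℕ, (v.flatMap (bitsF b)).length = v.length * b
  | [] => by simp
  | a :: v => by
    rw [List.flatMap_cons, List.length_append, bitsF_length, flatMap_bitsF_length b v,
      List.length_cons]
    ring

/-! ### The machine -/

/-- the question of an atom -/
def aQ (L : List (List Bool)) (v : List ℕ) (p : ℕ × List ℕ) : List Bool :=
  p.2.flatMap fun i => L.getD (v.getD i 0) []

/-- the value of an atom, given the questions with a positive answer -/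
def aV (L : List (List Bool)) (Rs : List (List (ℕ × ℕ))) (Y : List (List Bool)) (v : List ℕ)
    (p : ℕ × List ℕ) : Bool :=
  if p.1 = 0 then decide (aQ L v p ∈ Y) else
    decide ((v.getD (p.2.getD 0 0) 0, v.getD (p.2.getD 1 0) 0) ∈ Rs.getD (p.1 - 1) [])

/-- the length of a field -/
def fb (L : List (List Bool)) : ℕ := L.length.bits.length

/-- the guess of the machine -/
def gv (z : List Bool) : List ℕ :=
  vec (fb (dI (unpair z).2).1) ((unpair z).1.length / fb (dI (unpair z).2).1) (unpair z).1

/-- the questions of the machine -/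
def wQ (z : List Bool) : List (List Bool) :=
  (dI (unpair z).2).2.2.2.1.map fun p => aQ (dI (unpair z).2).1 (gv z) p

/-- the verdict of the machine -/
def wH (q : List Bool × List Bool) : List Bool :=
  bif decide ((unpair q.1).1.length = ((dI (unpair q.1).2).2.2.1.head?.getD 0) *
      fb (dI (unpair q.1).2).1) &&
    ((gv q.1).all (fun a => decide (a < (dI (unpair q.1).2).1.length)) &&
      decide (((dI (unpair q.1).2).2.2.2.1.map fun p => aV (dI (unpair q.1).2).1
        (dI (unpair q.1).2).2.1 (yesL (wQ q.1) q.2) (gv q.1) p) ∈ (dI (unpair q.1).2).2.2.2.2))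
    then [true] else []

theorem poly_aQ {α : Type} [TEnc α] {L : α → List (List Bool)} {v : α → List ℕ}
    {p : α → ℕ × List ℕ} (hL : NPC.Poly L) (hv : NPC.Poly v) (hp : NPC.Poly p) :
    NPC.Poly (fun a => aQ (L a) (v a) (p a)) := by
  unfold aQ
  refine NPC.Poly.flatMap (F := fun a i => (L a).getD ((v a).getD i 0) []) (NPC.Poly.snd hp) ?_
  have f1 : NPC.Poly (fun q : α × ℕ => q.1) := NPC.Poly.fst NPC.Poly.id
  exact NPC.Poly.getD (hL.comp f1) (NPC.Poly.getD (hv.comp f1) (NPC.Poly.snd NPC.Poly.id)
    (NPC.Poly.const 0)) (NPC.Poly.const [])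

theorem poly_aV {α : Type} [TEnc α] {L : α → List (List Bool)} {Rs : α → List (List (ℕ × ℕ))}
    {Y : α → List (List Bool)} {v : α → List ℕ} {p : α → ℕ × List ℕ} (hL : NPC.Poly L)
    (hR : NPC.Poly Rs) (hY : NPC.Poly Y) (hv : NPC.Poly v) (hp : NPC.Poly p) :
    NPC.Poly (fun a => aV (L a) (Rs a) (Y a) (v a) (p a)) := by
  unfold aV
  refine NPC.Poly.ite (NPC.Poly.decide_eq (NPC.Poly.fst hp) (NPC.Poly.const 0))
    (NPC.Poly.dec_mem (poly_aQ hL hv hp) hY) ?_
  refine NPC.Poly.dec_mem (NPC.Poly.pair ?_ ?_) ?_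
  · exact NPC.Poly.getD hv (NPC.Poly.getD (NPC.Poly.snd hp) (NPC.Poly.const 0)
      (NPC.Poly.const 0)) (NPC.Poly.const 0)
  · exact NPC.Poly.getD hv (NPC.Poly.getD (NPC.Poly.snd hp) (NPC.Poly.const 1)
      (NPC.Poly.const 0)) (NPC.Poly.const 0)
  · exact NPC.Poly.getD hR (NPC.Poly.sub (NPC.Poly.fst hp) (NPC.Poly.const 1))
      (NPC.Poly.const [])

theorem uPoly_fb {α : Type} [TEnc α] {L : α → List (List Bool)} (hL : NPC.Poly L) :
    UPoly (fun a => fb (L a)) := UPoly.length (Poly.natBits (NPC.Poly.length hL))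

theorem poly_gv : NPC.Poly gv := by
  have h1 : NPC.Poly (fun z : List Bool => (unpair z).1) := NPC.Poly.fst poly_unpair
  have h2 : NPC.Poly (fun z : List Bool => dI (unpair z).2) :=
    poly_dI.comp (NPC.Poly.snd poly_unpair)
  have hb := uPoly_fb (NPC.Poly.fst h2)
  unfold gv
  exact poly_vec hb (UPoly.of_le (NPC.Poly.div (NPC.Poly.length h1) hb.toPoly) (UPoly.length h1)
    (fun z => Nat.div_le_self _ _)) h1

theorem poly_wQ : NPC.Poly wQ := by
  have h2 : NPC.Poly (fun z : List Bool => dI (unpair z).2) :=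
    poly_dI.comp (NPC.Poly.snd poly_unpair)
  have f1 : NPC.Poly (fun q : List Bool × (ℕ × List ℕ) => q.1) := NPC.Poly.fst NPC.Poly.id
  unfold wQ
  exact NPC.Poly.map (F := fun z p => aQ (dI (unpair z).2).1 (gv z) p)
    (NPC.Poly.fst (NPC.Poly.snd (NPC.Poly.snd (NPC.Poly.snd h2))))
    (poly_aQ ((NPC.Poly.fst h2).comp f1) (poly_gv.comp f1) (NPC.Poly.snd NPC.Poly.id))

theorem poly_wH : NPC.Poly wH := by
  have h0 : NPC.Poly (fun q : List Bool × List Bool => q.1) := NPC.Poly.fst NPC.Poly.id
  have h1 : NPC.Poly (fun q : List Bool × List Bool => (unpair q.1).1) :=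
    (NPC.Poly.fst poly_unpair).comp h0
  have h2 : NPC.Poly (fun q : List Bool × List Bool => dI (unpair q.1).2) :=
    (poly_dI.comp (NPC.Poly.snd poly_unpair)).comp h0
  have hY : NPC.Poly (fun q : List Bool × List Bool => yesL (wQ q.1) q.2) :=
    poly_yesL (poly_wQ.comp h0) (NPC.Poly.snd NPC.Poly.id)
  have hg : NPC.Poly (fun q : List Bool × List Bool => gv q.1) := poly_gv.comp h0
  unfold wH
  refine NPC.Poly.cond (NPC.Poly.and ?_ (NPC.Poly.and ?_ ?_)) (NPC.Poly.const _)
    (NPC.Poly.const _)
  · exact NPC.Poly.decide_eq (NPC.Poly.length h1) (NPC.Poly.mul (NPC.Poly.head?_getD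
      (NPC.Poly.fst (NPC.Poly.snd (NPC.Poly.snd h2))) 0) (uPoly_fb (NPC.Poly.fst h2)).toPoly)
  · refine NPC.Poly.all (p := fun (q : List Bool × List Bool) (a : ℕ) =>
      decide (a < (dI (unpair q.1).2).1.length)) hg ?_
    exact NPC.Poly.decide_lt (NPC.Poly.snd NPC.Poly.id)
      ((NPC.Poly.length (NPC.Poly.fst h2)).comp (NPC.Poly.fst NPC.Poly.id))
  · refine NPC.Poly.dec_mem ?_ (NPC.Poly.snd (NPC.Poly.snd (NPC.Poly.snd (NPC.Poly.snd h2))))
    have f1 : NPC.Poly (fun q : (List Bool × List Bool) × (ℕ × List ℕ) => q.1) :=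
      NPC.Poly.fst NPC.Poly.id
    exact NPC.Poly.map (F := fun (q : List Bool × List Bool) p => aV (dI (unpair q.1).2).1
        (dI (unpair q.1).2).2.1 (yesL (wQ q.1) q.2) (gv q.1) p)
      (NPC.Poly.fst (NPC.Poly.snd (NPC.Poly.snd (NPC.Poly.snd h2))))
      (poly_aV ((NPC.Poly.fst h2).comp f1) ((NPC.Poly.fst (NPC.Poly.snd h2)).comp f1)
        (hY.comp f1) (hg.comp f1) (NPC.Poly.snd NPC.Poly.id))

theorem head_sum {I : Inst} (hI : I.IsW 1) : I.blocks.head?.getD 0 = I.blocks.sum := by
  have h1 := hI.1.2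
  rcases hb : I.blocks with _ | ⟨s, bs⟩
  · simp
  · rw [hb, List.length_cons] at h1
    have h2 : bs = [] := List.length_eq_zero_iff.1 (by omega)
    subst h2
    simp

theorem fb_pos {L : List (List Bool)} (hL : L ≠ []) : 1 ≤ fb L := by
  unfold fb
  rw [Nat.size_eq_bits_len]
  exact Nat.size_pos.2 (List.length_pos_iff.2 hL)

theorem lt_fb (L : List (List Bool)) : L.length < 2 ^ fb L := by
  unfold fb
  rw [Nat.size_eq_bits_len]
  exact Nat.lt_size_self _

/-- The machine is correct. -/
theorem wV_correct {V : Alg} (hV : ∀ (A : Oracle) (x : List Bool),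
    V.out A x = some (wH (x, (wQ x).map A))) {I : Inst} (hI : I.IsW 1) (A : Oracle) {q g L : ℕ}
    (hg : I.param ≤ g) (hL : ∀ l ∈ I.labels, l.length ≤ L) (hq : g * L ≤ q) (x : List Bool) :
    V.out (upTo q A) (pairBits x (bits I)) = some [true] ↔
      (x.length = I.blocks.sum * fb I.labels ∧ (∀ a ∈ vec (fb I.labels) I.blocks.sum x,
        a < I.labels.length) ∧
        I.atoms.map (I.atom A (vec (fb I.labels) I.blocks.sum x)) ∈ I.acc) := by
  have hb := fb_pos hI.1.1
  rw [hV]
  unfold wH
  dsimp only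
  rw [unpair_pairBits]
  dsimp only
  rw [dI_bits]
  have e1 : (tup I).1 = I.labels := rfl
  have e2 : (tup I).2.1 = I.rels := rfl
  have e3 : (tup I).2.2.1 = I.blocks := rfl
  have e4 : (tup I).2.2.2.1 = I.atoms := rfl
  have e5 : (tup I).2.2.2.2 = I.acc := rfl
  rw [e1, e2, e3, e4, e5, head_sum hI]
  by_cases h1 : x.length = I.blocks.sum * fb I.labels
  swap
  · rw [decide_eq_false h1]
    simp [h1]
  have hgv : gv (pairBits x (bits I)) = vec (fb I.labels) I.blocks.sum x := by
    unfold gv
    rw [unpair_pairBits]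
    dsimp only
    rw [dI_bits, e1, h1, Nat.mul_div_cancel _ hb]
  have hwQ : wQ (pairBits x (bits I)) =
      I.atoms.map fun p => aQ I.labels (vec (fb I.labels) I.blocks.sum x) p := by
    unfold wQ
    rw [hgv, unpair_pairBits]
    dsimp only
    rw [dI_bits]
    rfl
  rw [hwQ, hgv]
  set v := vec (fb I.labels) I.blocks.sum x with hv
  have hat : (I.atoms.map fun p => aV I.labels I.rels (yesL (I.atoms.map fun p => aQ I.labels v p)
      ((I.atoms.map fun p => aQ I.labels v p).map (upTo q A))) v p) =
      I.atoms.map (I.atom A v) := by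
    refine List.map_congr_left fun p hp => ?_
    obtain ⟨r, l⟩ := p
    rcases r with _ | r
    · have h2 : aQ I.labels v (0, l) ∈ I.atoms.map fun p => aQ I.labels v p :=
        List.mem_map.2 ⟨_, hp, rfl⟩
      have h3 := mem_yes (A := upTo q A) h2
      have h4 : upTo q A (aQ I.labels v (0, l)) = A (aQ I.labels v (0, l)) := by
        unfold upTo
        rw [if_pos]
        exact (flat_short I hp v hg hL).trans hq
      rw [h4] at h3
      show decide _ = A (aQ I.labels v (0, l))
      by_cases h5 : A (aQ I.labels v (0, l)) = true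
      · rw [decide_eq_true (h3.2 h5), h5]
      · rw [decide_eq_false (fun h6 => h5 (h3.1 h6))]
        simpa using h5
    · rfl
  rw [hat, decide_eq_true h1]
  have h6 : (v.all (fun a => decide (a < I.labels.length))) = true ↔
      ∀ a ∈ v, a < I.labels.length := by
    rw [List.all_eq_true]
    exact forall₂_congr fun a _ => decide_eq_true_iff
  rw [← h6]
  by_cases h7 : (v.all (fun a => decide (a < I.labels.length))) = true
  · by_cases h8 : I.atoms.map (I.atom A v) ∈ I.acc
    · rw [h7, decide_eq_true h8]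
      simp [h1, h8]
    · rw [h7, decide_eq_false h8]
      simp [h8]
  · have h9 : (v.all (fun a => decide (a < I.labels.length))) = false := by simpa using h7
    rw [h9]
    simp

theorem inWPs_of_inWs {A : Oracle} {α : Type} [TEnc α] {κ : α → ℕ} {P : α → Prop}
    (h : InWs 1 A κ P) : InWPs A κ P := by
  obtain ⟨π, g, R, M, hπ, hg, h⟩ := h
  obtain ⟨b, hb⟩ := M.out_length
  obtain ⟨C, e, hlog⟩ := log_eval b
  obtain ⟨V, hV⟩ := exists_tt poly_wQ poly_wH
  have hlen : Computable (fun k => (π k).length) := Computable.list_length.comp hπ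
  refine ⟨π, fun k => g k * g k + g k * (C + e * (2 * (π k).length + 2) + 1), fun a => bits (R a),
    M, V, hπ, computable_add (computable_mul hg hg) (computable_mul hg (computable_add
      (computable_add (Computable.const C) (computable_mul (Computable.const e)
      (computable_add (computable_mul (Computable.const 2) hlen) (Computable.const 2))))
      (Computable.const 1))), fun a => ⟨(h a).1, ?_⟩⟩
  obtain ⟨h1, h2, h3, h4, h5⟩ := h a
  have hlg := lg_pos a
  beta_reduce
  have hfb : fb (R a).labels ≤ (C + e * (2 * (π (κ a)).length + 2) + 1) * lg a := by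
    have h6 : (R a).labels.length ≤ (bits (R a)).length := by
      rw [bits_length]
      have e1 : sz (R a) = sz (R a).labels + sz ((R a).rels, (R a).blocks, (R a).atoms,
        (R a).acc) + 1 := sz_pair (R a).labels ((R a).rels, (R a).blocks, (R a).atoms, (R a).acc)
      have := length_lt_sz (R a).labels
      omega
    have h7 : Nat.log 2 (R a).labels.length ≤
        C + e * (2 * (π (κ a)).length + 1 + lg a) := by
      refine hlog (π (κ a)).length (bits a).length _ ?_
      have := hb A _ _ h1
      rw [length_pairBits] at this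
      omega
    have h8 : fb (R a).labels = Nat.log 2 (R a).labels.length + 1 := by
      unfold fb
      rw [Nat.size_eq_bits_len]
      exact (log_size (by
        have := List.length_pos_iff.2 h2.1.1
        omega)).symm
    rw [h8]
    have e1 : (C + e * (2 * (π (κ a)).length + 2) + 1) * lg a =
        C * lg a + e * ((2 * (π (κ a)).length + 1) * lg a + lg a) + lg a := by ring
    rw [e1]
    have h9 : C ≤ C * lg a := Nat.le_mul_of_pos_right _ hlg
    have h10 : 2 * (π (κ a)).length + 1 ≤ (2 * (π (κ a)).length + 1) * lg a :=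
      Nat.le_mul_of_pos_right _ hlg
    have h11 : e * (2 * (π (κ a)).length + 1 + lg a) ≤
        e * ((2 * (π (κ a)).length + 1) * lg a + lg a) := Nat.mul_le_mul_left _ (by omega)
    omega
  set G := g (κ a) * g (κ a) + g (κ a) * (C + e * (2 * (π (κ a)).length + 2) + 1) with hG
  have hq : g (κ a) * (g (κ a) * lg a) ≤ G * lg a := by
    rw [hG, add_mul, mul_assoc (g (κ a)) (g (κ a)) (lg a)]
    omega
  have hsum : (R a).blocks.sum ≤ g (κ a) := by
    unfold Inst.param at h3
    omega
  have hlenx : (R a).blocks.sum * fb (R a).labels ≤ G * lg a := by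
    have h6 : (R a).blocks.sum * fb (R a).labels ≤
        g (κ a) * ((C + e * (2 * (π (κ a)).length + 2) + 1) * lg a) := Nat.mul_le_mul hsum hfb
    rw [hG, add_mul, mul_assoc (g (κ a)) (C + e * (2 * (π (κ a)).length + 2) + 1) (lg a)]
    omega
  rw [h5, sat_one h2]
  constructor
  · rintro ⟨v, ⟨h6, h7⟩, h8⟩
    refine ⟨v.flatMap (bitsF (fb (R a).labels)), ?_, ?_⟩
    · rw [flatMap_bitsF_length, h6]
      exact hlenx
    · have h9 : vec (fb (R a).labels) (R a).blocks.sum
          (v.flatMap (bitsF (fb (R a).labels))) = v := by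
        rw [← h6]
        exact vec_flatMap fun x hx => (h7 x hx).trans (lt_fb _)
      rw [wV_correct hV h2 A h3 h4 hq, h9]
      exact ⟨by rw [flatMap_bitsF_length, h6], h7, h8⟩
  · rintro ⟨x, _, h6⟩
    rw [wV_correct hV h2 A h3 h4 hq] at h6
    refine ⟨_, ⟨?_, h6.2.1⟩, h6.2.2⟩
    unfold vec
    rw [List.length_map, List.length_range]

end Pool.Agent.H681.TB
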