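import Pool.Agent.H681.TB.Coll
import Pool.Agent.H681.TB.Stage
import Pool.Agent.H681.TB.Wp
import Pool.Agent.H681.OR.Final
import Pool.Graph.R_seed8.Y626.WX.Defs

/-!
# The main theorem
-/

set_option autoImplicit false

namespace Pool.Agent.H681.TB

open Pool.Agent.NPC Pool.Agent.H620R2.Gauge Pool.Agent.H622R2 Pool.Agent.Y626.WG
open Pool.Agent.H681.OR
open Pool.Agent.TH678.GC (join)
open Pool.Agent.TH678.WP (uPoly_log poly_replicate computable_pairBits computable_replicate log_size)
open Pool.Agent.Y626.WC (isFP_total InFPT sat_one)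
open Pool.Agent.Y626

/-- `FPT` is contained in `M[1]`. -/
theorem inM_of_inFPT {Φ : ℕ → List Bool → Oracle → Prop} {D E : Oracle} (hE : TGood Φ D E)
    {α : Type} [TEnc α] {κ : α → ℕ} {P : α → Prop} (h : InFPT (join D E) κ P) :
    InM (join D E) κ P := by
  classical
  obtain ⟨π, M, hπ, h⟩ := h
  let y1 : List Bool := [true, false, false]
  let y0 : List Bool := []
  have h2 : Mini (join D E) y1 := ⟨[false, false, false], rfl, hE.one⟩
  have h4 : ¬ Mini (join D E) y0 := by
    rintro ⟨w, h5, h6⟩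
    have h7 : w = [] := List.length_eq_zero_iff.1 h5
    subst h7
    have h8 : (false : Bool) = true := h6
    exact absurd h8 (by decide)
  have hp : NPC.Poly (fun z : List Bool => if z = [true] then y1 else y0) :=
    NPC.Poly.ite (NPC.Poly.decide_eq NPC.Poly.id (NPC.Poly.const [true])) (NPC.Poly.const _)
      (NPC.Poly.const _)
  obtain ⟨M', hM'⟩ := IsFP.comp (IsFP.of_poly (A := join D E) hp) (isFP_total (join D E) M)
  choose b hb1 hb2 using h
  refine ⟨π, fun _ => 3, fun a => if b a = true then y1 else y0, M', hπ, Computable.const 3,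
    fun a => ⟨?_, ?_, ?_⟩⟩
  · rw [hM']
    beta_reduce
    rw [hb1 a, Option.getD_some]
    cases b a <;> simp
  · have := lg_pos a
    have h5 : y1.length = 3 := rfl
    have h6 : y0.length = 0 := rfl
    by_cases hb : b a = true
    · simp only [hb, if_true]; omega
    · simp only [hb]; simp only [Bool.false_eq_true, if_false]; omega
  · rw [hb2 a]
    by_cases hb : b a = true
    · simp only [hb, if_true, true_iff]; exact h2
    · simp only [hb]; simp only [Bool.false_eq_true, if_false, false_iff]; exact h4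

/-- The problem `Mini` is in `NP`. -/
theorem mini_np (A : Oracle) : IsNP A {y | Mini A y} := by
  have h1 : NPC.Poly (fun z : List Bool => (unpair z).1) := NPC.Poly.fst poly_unpair
  have h2 : NPC.Poly (fun z : List Bool => (unpair z).2) := NPC.Poly.snd poly_unpair
  obtain ⟨V, hV⟩ := exists_tt (Q := fun z => [(unpair z).2 ++ (unpair z).1])
    (H := fun p => if (unpair p.1).1.length = (unpair p.1).2.length then p.2 else [])
    (NPC.Poly.cons (NPC.Poly.append h2 h1) (NPC.Poly.const []))
    (NPC.Poly.ite (NPC.Poly.decide_eq (NPC.Poly.length (h1.comp (NPC.Poly.fst NPC.Poly.id)))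
      (NPC.Poly.length (h2.comp (NPC.Poly.fst NPC.Poly.id)))) (NPC.Poly.snd NPC.Poly.id)
      (NPC.Poly.const []))
  refine ⟨fun x => if (unpair x).1.length = (unpair x).2.length then
    [A ((unpair x).2 ++ (unpair x).1)] else [], Polynomial.X, ⟨V, fun x => by
      rw [hV A x]; rfl⟩, fun y => ?_⟩
  show Mini A y ↔ _
  unfold Mini
  constructor
  · rintro ⟨w, h3, h4⟩
    refine ⟨w, by rw [Polynomial.eval_X, h3], ?_⟩
    beta_reduce
    rw [unpair_pairBits]
    dsimp only
    rw [if_pos h3, h4]
  · rintro ⟨w, _, h4⟩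
    beta_reduce at h4
    rw [unpair_pairBits] at h4
    dsimp only at h4
    by_cases h3 : w.length = y.length
    · rw [if_pos h3] at h4
      exact ⟨w, h3, by simpa using h4⟩
    · rw [if_neg h3] at h4
      exact absurd h4 (by simp)

/-- The narrow form of `M[1]` is contained in the wide form. -/
theorem wide_of_inM {A : Oracle} {α : Type} [TEnc α] {κ : α → ℕ} {P : α → Prop}
    (h : InM A κ P) : WX.InM1 A κ P := by
  obtain ⟨π, g, r, M, hπ, hg, h⟩ := h
  refine ⟨π, g, 1, M, r, {y | Mini A y}, hπ, hg, mini_np A, fun a => ⟨(h a).1, ?_, (h a).2.2⟩⟩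
  rw [pow_one]
  exact (h a).2.1

theorem pow_le_two_pow (j m : ℕ) : m ^ j ≤ j ^ j * 2 ^ m := by
  rcases Nat.eq_zero_or_pos j with rfl | hj
  · simp [Nat.one_le_two_pow]
  have h1 : m ≤ j * 2 ^ (m / j) := by
    have h2 : m / j + 1 ≤ 2 ^ (m / j) := Nat.lt_two_pow_self
    have h3 : m < j * (m / j + 1) := by
      have := Nat.lt_div_mul_add (a := m) hj
      rw [mul_add, mul_one, mul_comm j]
      exact this
    exact h3.le.trans (Nat.mul_le_mul_left _ h2)
  calc m ^ j ≤ (j * 2 ^ (m / j)) ^ j := Nat.pow_le_pow_left h1 j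
    _ = j ^ j * 2 ^ (m / j * j) := by rw [mul_pow, ← pow_mul]
    _ ≤ j ^ j * 2 ^ m := Nat.mul_le_mul_left _ (Nat.pow_le_pow_right (by norm_num)
      (Nat.div_mul_le_self m j))

/-- The problems in the wide form of `M[1]` have compressions. -/
theorem comp_of_wide {A : Oracle} {α : Type} [TEnc α] {κ : α → ℕ} {P : α → Prop}
    (h : WX.InM1 A κ P) : InComp A κ P := by
  obtain ⟨π, h, c, M, r, L, _, _, _, h1⟩ := h
  refine ⟨π, fun k => h k ^ (c * 3) * ((c * 3) ^ (c * 3) * 2), r, M, L,
    fun a => ⟨(h1 a).1, ?_, (h1 a).2.2⟩⟩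
  have hn : (bits a).length ≠ 0 := by rw [bits_length]; exact (sz_pos a).ne'
  have h2 := Nat.pow_log_le_self 2 hn
  have h3 := pow_le_two_pow (c * 3) (Nat.log 2 (bits a).length + 1)
  calc (r a).length ^ 3 ≤ ((h (κ a) * (Nat.log 2 (bits a).length + 1)) ^ c) ^ 3 :=
        Nat.pow_le_pow_left (h1 a).2.1 3
    _ = h (κ a) ^ (c * 3) * (Nat.log 2 (bits a).length + 1) ^ (c * 3) := by
      rw [← pow_mul, mul_pow]
    _ ≤ h (κ a) ^ (c * 3) * ((c * 3) ^ (c * 3) * 2 ^ (Nat.log 2 (bits a).length + 1)) :=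
      Nat.mul_le_mul_left _ h3
    _ ≤ h (κ a) ^ (c * 3) * ((c * 3) ^ (c * 3) * (2 * (bits a).length)) := by
      refine Nat.mul_le_mul_left _ (Nat.mul_le_mul_left _ ?_)
      rw [pow_succ]
      omega
    _ = _ := by ring

/-- the trivial instance -/
def instF : Inst := ⟨[[]], [], [], [], []⟩

theorem instF_sat (A : Oracle) : ¬ instF.Sat A := by
  intro h
  have h1 : instF.atoms.map (instF.atom A []) ∈ instF.acc := h
  simp [instF] at h1

/-- The problem about tables is in `W[1]`. -/
theorem inWs_tab (D E : Oracle) :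
    InWs 1 (join D E) (fun a : List (List Bool) × ℕ => a.2) (TabP (join D E)) := by
  classical
  have h1 : NPC.Poly (fun z : List Bool => (unpair z).1) := NPC.Poly.fst poly_unpair
  have h2 : NPC.Poly (fun z : List Bool => (unpair z).2) := NPC.Poly.snd poly_unpair
  have hT : NPC.Poly (fun z : List Bool =>
      ((unbits (List (List Bool) × ℕ) (unpair z).2).getD ([], 0)).1) :=
    NPC.Poly.fst (Poly.optGetD (poly_unbits.comp h2) (NPC.Poly.const _))
  have hc : NPC.Poly (fun z : List Bool =>
      (((unbits (List (List Bool) × ℕ) (unpair z).2).getD ([], 0)).1).all fun l =>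
        decide (l.length ≤ 8 * (Nat.log 2 (unpair z).2.length + 1))) := by
    refine NPC.Poly.all (p := fun (z : List Bool) (l : List Bool) =>
      decide (l.length ≤ 8 * (Nat.log 2 (unpair z).2.length + 1))) hT ?_
    refine NPC.Poly.decide_le (NPC.Poly.length (NPC.Poly.snd NPC.Poly.id)) ?_
    exact ((UPoly.const 8).mul ((uPoly_log h2).comp (NPC.Poly.fst NPC.Poly.id))).toPoly
  have hp : NPC.Poly (fun z : List Bool => bits
      (if ((((unbits (List (List Bool) × ℕ) (unpair z).2).getD ([], 0)).1).all fun l =>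
        decide (l.length ≤ 8 * (Nat.log 2 (unpair z).2.length + 1))) = true then
      (if ((unbits (List (List Bool) × ℕ) (unpair z).2).getD ([], 0)).1 = [] then instF else
        instT ((unbits (List (List Bool) × ℕ) (unpair z).2).getD ([], 0)).1 (unpair z).1.length)
      else instF)) := by
    refine poly_bits (NPC.Poly.ite ?_ (NPC.Poly.ite (NPC.Poly.decide_eq hT (NPC.Poly.const _))
      (NPC.Poly.const _) (poly_instT hT (UPoly.length h1))) (NPC.Poly.const _))
    simpa only [Bool.decide_eq_true] using hc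
  obtain ⟨M, hM⟩ := IsFP.of_poly (A := join D E) hp
  let R : List (List Bool) × ℕ → Inst := fun a =>
    if (a.1.all fun l => decide (l.length ≤ 8 * lg a)) = true then
      (if a.1 = [] then instF else instT a.1 a.2) else instF
  have hF : instF.IsW 1 := by
    refine ⟨⟨by simp [instF], by simp [instF]⟩, by simp [instF]⟩
  have hR : ∀ a, ((∀ l ∈ a.1, l.length ≤ 8 * lg a) ∧ a.1 ≠ [] ∧ R a = instT a.1 a.2) ∨
      (R a = instF ∧ ¬ TabP (join D E) a) := by
    intro a
    by_cases hl : ∀ l ∈ a.1, l.length ≤ 8 * lg a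
    · by_cases h0 : a.1 = []
      · right
        refine ⟨?_, ?_⟩
        · simp only [R]
          rw [if_pos h0]
          split_ifs <;> rfl
        · rintro ⟨_, u, _, h4, h5⟩
          rcases u with _ | ⟨l, u⟩
          · have h8 : (false : Bool) = true := h5
            exact absurd h8 (by decide)
          · have := h4 l List.mem_cons_self
            rw [h0] at this
            simp at this
      · left
        refine ⟨hl, h0, ?_⟩
        simp only [R]
        rw [if_pos (by rw [List.all_eq_true]; intro l h; exact decide_eq_true (hl l h)), if_neg h0]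
    · right
      refine ⟨?_, fun h => hl h.1⟩
      simp only [R]
      rw [if_neg]
      rw [List.all_eq_true]
      intro h
      exact hl fun l h' => of_decide_eq_true (h l h')
  refine ⟨fun k => List.replicate k true, fun k => 2 * k + 8, R, M, computable_replicate,
    computable_add (computable_mul (Computable.const 2) Computable.id) (Computable.const 8),
    fun a => ⟨?_, ?_, ?_, ?_, ?_⟩⟩
  · rw [hM]
    beta_reduce
    simp only [unpair_pairBits, unbits_bits, Option.getD_some, List.length_replicate]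
    rfl
  · rcases hR a with ⟨_, h4, h5⟩ | ⟨h5, _⟩
    · rw [h5]; exact instT_isW h4 _
    · rw [h5]; exact hF
  · rcases hR a with ⟨_, h4, h5⟩ | ⟨h5, _⟩
    · rw [h5, instT_param]; beta_reduce; omega
    · rw [h5]; simp [instF, Inst.param]
  · rcases hR a with ⟨h3, h4, h5⟩ | ⟨h5, _⟩
    · rw [h5]
      intro l hl
      refine (h3 l hl).trans (Nat.mul_le_mul_right _ ?_)
      beta_reduce
      omega
    · rw [h5]
      intro l hl
      have : l = [] := by simpa [instF] using hl
      rw [this]
      simp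
  · rcases hR a with ⟨h3, h4, h5⟩ | ⟨h5, h6⟩
    · rw [h5, instT_sat h4]
      exact ⟨fun h => h.2, fun h => ⟨h3, h⟩⟩
    · rw [h5]
      exact ⟨fun h => absurd h h6, fun h => absurd h (instF_sat _)⟩

/-- The classes `FPT`, `M[1]` and `W[1]` are different, but the classes above `W[1]` are equal to
`W[1]`. -/
theorem main (D : Oracle) (Φ : ℕ → List Bool → Oracle → Prop) : ∃ E : Oracle,
    (∀ (α : Type) [TEnc α] (κ : α → ℕ) (P : α → Prop),
      (InFPT (join D E) κ P → InM (join D E) κ P) ∧
      (InM (join D E) κ P → InWs 1 (join D E) κ P ∧ WX.InM1 (join D E) κ P) ∧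
      (WX.InM1 (join D E) κ P → InComp (join D E) κ P) ∧
      (∀ t, 1 ≤ t → (InWs t (join D E) κ P ↔ InWs 1 (join D E) κ P) ∧
        (InAs t (join D E) κ P ↔ InWs 1 (join D E) κ P)) ∧
      (InAWs (join D E) κ P ↔ InWs 1 (join D E) κ P) ∧
      (InWPs (join D E) κ P ↔ InWs 1 (join D E) κ P) ∧
      ∀ i, Reduces (Φ i) (join D E) κ P → InWs 1 (join D E) κ P) ∧
    (InM (join D E) width (fun a => Mini (join D E) a.2) ∧
      ∀ (k : ℕ) (M : Alg) (s : List Bool), 8 * M.p.natDegree < k →
        ∃ (a : List Bool × List Bool) (b : Bool), width a = k ∧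
          (Mini (join D E) a.2 ↔ b = true) ∧ M.out (join D E) (pairBits s (bits a)) ≠ some [b]) ∧
    InWs 1 (join D E) (fun a : List (List Bool) × ℕ => a.2) (TabP (join D E)) ∧
    ¬ InComp (join D E) (fun a : List (List Bool) × ℕ => a.2) (TabP (join D E)) := by
  classical
  obtain ⟨f, hf⟩ : ∃ f : ℕ → Alg, Function.Surjective f := by
    have : Nonempty Alg := ⟨⟨fun _ => [], polyTime_of_poly_list (NPC.Poly.const []), 0⟩⟩
    exact exists_surjective_nat Alg
  let Ψ : ℕ → List Bool → Oracle → Prop := fun i =>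
    if i = 0 then SatP else if i % 2 = 1 then GuessP (f (i / 2)) else Φ ((i - 2) / 2)
  have e0 : Ψ 0 = SatP := rfl
  have e1 : ∀ i, Ψ (2 * i + 1) = GuessP (f i) := by
    intro i
    simp only [Ψ]
    rw [if_neg (by omega), if_pos (by omega)]
    congr 2
    omega
  have e2 : ∀ i, Ψ (2 * i + 2) = Φ i := by
    intro i
    simp only [Ψ]
    rw [if_neg (by omega), if_neg (by omega)]
    congr 1
    omega
  obtain ⟨E, hE, hF, hF'⟩ := exists_toracle Ψ D
  refine ⟨E, fun α _ κ P => ?_, ⟨inM_canonical _, fun k M s hk => ?_⟩, inWs_tab D E, ?_⟩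
  · have hAW : InAWs (join D E) κ P → InWs 1 (join D E) κ P := fun h =>
      inWs_of_reduces hE 0 (by rw [e0]; exact reduces_of_inAWs h)
    have hWP : InWPs (join D E) κ P → InWs 1 (join D E) κ P := fun h => by
      obtain ⟨V, hV⟩ := reduces_of_inWPs h
      obtain ⟨i, rfl⟩ := hf V
      exact inWs_of_reduces hE (2 * i + 1) (by rw [e1]; exact hV)
    have hPW : InWs 1 (join D E) κ P → InWPs (join D E) κ P := inWPs_of_inWs
    refine ⟨fun h => inM_of_inFPT hE h, fun h => ⟨inWs_of_inM h, wide_of_inM h⟩, comp_of_wide,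
      fun t ht => ⟨⟨fun h => hAW (inAWs_of_inAs (inAs_of_inWs h)), fun h => inWs_mono ht h⟩,
        ⟨fun h => hAW (inAWs_of_inAs h), fun h => inAs_of_inWs (inWs_mono ht h)⟩⟩,
      ⟨hAW, fun h => inAWs_of_inAs (inAs_of_inWs h)⟩, ⟨hWP, hPW⟩,
      fun i h => inWs_of_reduces hE (2 * i + 2) (by rw [e2]; exact h)⟩
  · obtain ⟨a, b, h1, h2, h3⟩ := hF (M, s, k) hk
    exact ⟨a, b, h1, h2, h3⟩
  · rintro ⟨π, h, r, M, L, h1⟩
    obtain ⟨a, a', h2, h3, h4, h5⟩ := hF' (M, π (6 * M.p.natDegree + 1), 6 * M.p.natDegree + 1,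
      h (6 * M.p.natDegree + 1)) (Nat.lt_succ_self _)
    dsimp only at h2 h3 h5
    have h6 := h1 a
    have h7 := h1 a'
    beta_reduce at h6 h7
    rw [h2] at h6
    rw [h3] at h7
    rcases h5 with h5 | ⟨h5, h8⟩
    · exact absurd h6.2.1 (not_le.2 (h5 _ h6.1))
    · rw [h6.1, h7.1] at h5
      have h9 := Option.some.inj h5
      apply h8
      rw [h7.2.2, ← h9, ← h6.2.2]
      exact h4

end Pool.Agent.H681.TB
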