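import Pool.Agent.H681.TB.Exist
import Pool.Graph.R_seed8.H620R2.Gauge.A2

/-!
# Few commitments determine the run of an algorithm
-/

set_option autoImplicit false

namespace Pool.Agent.H681.TB

open Pool.Agent.NPC Pool.Agent.H620R2.Gauge Pool.Agent.H681.OR
open Pool.Agent.TH678.GC (join)
open Pool.Agent.Y626.WC (cut cut_cut exists_self)

section

variable (Φ : ℕ → List Bool → Oracle → Prop) (D E₀ : Oracle) (n₀ : ℕ)

open Classical in
/-- the table of the key `K` in the base oracle -/
noncomputable def tabB (K : TKey) : List (List Bool) :=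
  if n₀ < Len K.B K.h then tabl K.B (true :: K.nm) else tabOf Φ D E₀ K

open Classical in
/-- the base oracle -/
noncomputable def baseO : Oracle := fun z =>
  if z.length < n₀ then E₀ z else
    match z with
    | true :: c => decide (∃ (K : TKey) (a j : ℕ), K.Ok ∧ a < NE K.B ∧ j < lam K.B ∧
        K.enc (a * lam K.B + j) = c ∧ ((tabB Φ D E₀ n₀ K).getD a []).getD j false = true)
    | _ => false

variable {Φ D E₀ n₀}

theorem base_code {K : TKey} (hK : K.Ok) (hl : n₀ ≤ K.len) :
    TCodes (baseO Φ D E₀ n₀) K (tabB Φ D E₀ n₀ K) := by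
  intro a ha j hj
  unfold baseO
  rw [if_neg (by rw [List.length_cons, K.enc_length]; omega)]
  have h2 : (∃ (K' : TKey) (a' j' : ℕ), K'.Ok ∧ a' < NE K'.B ∧ j' < lam K'.B ∧
      K'.enc (a' * lam K'.B + j') = K.enc (a * lam K.B + j) ∧
        ((tabB Φ D E₀ n₀ K').getD a' []).getD j' false = true) ↔
      ((tabB Φ D E₀ n₀ K).getD a []).getD j false = true := by
    constructor
    · rintro ⟨K', a', j', _, ha', hj', h4, h5⟩
      obtain ⟨rfl, h6⟩ := TKey.enc_inj (idx_lt ha hj) h4.symm
      obtain ⟨rfl, rfl⟩ := idx_inj hj hj' h6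
      exact h5
    · intro h
      exact ⟨K, a, j, hK, ha, hj, rfl, h⟩
  simp only [h2, Bool.decide_eq_true]

/-- The commitments are acceptable. -/
def COk (n₀ : ℕ) (S : Finset TKey) (Q : Finset (List Bool)) : Prop :=
  (∀ K ∈ S, K.Ok ∧ n₀ < Len K.B K.h) ∧ ∀ q ∈ Q, n₀ ≤ q.length ∧ ∃ x, q = false :: x

theorem COk.union {S S' : Finset TKey} {Q Q' : Finset (List Bool)} [DecidableEq TKey]
    (h : COk n₀ S Q) (h' : COk n₀ S' Q') : COk n₀ (S ∪ S') (Q ∪ Q') := by
  refine ⟨fun K hK => ?_, fun q hq => ?_⟩
  · rcases Finset.mem_union.1 hK with hK | hK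
    · exact h.1 K hK
    · exact h'.1 K hK
  · rcases Finset.mem_union.1 hq with hq | hq
    · exact h.2 q hq
    · exact h'.2 q hq

theorem COk.empty : COk n₀ ∅ ∅ := ⟨by simp, by simp⟩

/-- One question. -/
theorem one_question (h1 : 1 ≤ n₀) (q : List Bool) :
    ∃ (S : Finset TKey) (Q : Finset (List Bool)), COk n₀ S Q ∧ S.card + Q.card ≤ 1 ∧
      ∀ E, TCompat Φ D E₀ n₀ S Q E → join D E q = join D (baseO Φ D E₀ n₀) q := by
  rcases q with _ | ⟨b, z⟩
  · exact ⟨∅, ∅, COk.empty, by simp, fun E _ => rfl⟩
  cases b with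
  | false => exact ⟨∅, ∅, COk.empty, by simp, fun E _ => rfl⟩
  | true =>
    by_cases hz : z.length < n₀
    · refine ⟨∅, ∅, COk.empty, by simp, fun E hE => ?_⟩
      show E z = baseO Φ D E₀ n₀ z
      unfold baseO
      rw [if_pos hz, hE.low z hz]
    have hz' : n₀ ≤ z.length := not_lt.1 hz
    rcases z with _ | ⟨b, c⟩
    · simp at hz'; omega
    cases b with
    | false =>
      refine ⟨∅, {false :: c}, ⟨by simp, ?_⟩, by simp, fun E hE => ?_⟩
      · intro q hq
        rw [Finset.mem_singleton] at hq
        subst hq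
        exact ⟨hz', c, rfl⟩
      · show E (false :: c) = baseO Φ D E₀ n₀ (false :: c)
        unfold baseO
        rw [if_neg hz, hE.zero _ (Finset.mem_singleton_self _)]
    | true =>
      rw [List.length_cons] at hz'
      by_cases hex : ∃ (K : TKey) (a j : ℕ), K.Ok ∧ a < NE K.B ∧ j < lam K.B ∧
          K.enc (a * lam K.B + j) = c
      swap
      · refine ⟨∅, ∅, COk.empty, by simp, fun E hE => ?_⟩
        show E (true :: c) = baseO Φ D E₀ n₀ (true :: c)
        rw [hE.dead c hz' hex]
        unfold baseO
        rw [if_neg hz]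
        symm
        rw [decide_eq_false_iff_not]
        rintro ⟨K, a, j, h2, h3, h4, h5, _⟩
        exact hex ⟨K, a, j, h2, h3, h4, h5⟩
      obtain ⟨K, a, j, hK, ha, hj, rfl⟩ := hex
      rw [K.enc_length] at hz'
      have hb := base_code (Φ := Φ) (D := D) (E₀ := E₀) hK hz' a ha j hj
      by_cases hm : n₀ < Len K.B K.h
      · refine ⟨{K}, ∅, ⟨?_, by simp⟩, by simp, fun E hE => ?_⟩
        · intro K' hK'
          rw [Finset.mem_singleton] at hK'
          subst hK'
          exact ⟨hK, hm⟩
        · show E (true :: K.enc (a * lam K.B + j)) = baseO Φ D E₀ n₀ (true :: K.enc (a * lam K.B + j))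
          rw [hb, hE.code K (Finset.mem_singleton_self _) a ha j hj]
          unfold tabB
          rw [if_pos hm]
      · refine ⟨∅, ∅, COk.empty, by simp, fun E hE => ?_⟩
        show E (true :: K.enc (a * lam K.B + j)) = baseO Φ D E₀ n₀ (true :: K.enc (a * lam K.B + j))
        rw [hb, hE.lowcode K hK (not_lt.1 hm) hz' a ha j hj]
        unfold tabB
        rw [if_neg hm]

/-- The run of an algorithm. -/
theorem run_determined (h1 : 1 ≤ n₀) (M : Alg) (x : List Bool) : ∀ (n : ℕ) (a : List Bool),
    ∃ (S : Finset TKey) (Q : Finset (List Bool)), COk n₀ S Q ∧ S.card + Q.card ≤ n ∧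
      ∀ E, TCompat Φ D E₀ n₀ S Q E →
        M.run (join D E) x n a = M.run (join D (baseO Φ D E₀ n₀)) x n a := by
  classical
  intro n
  induction n with
  | zero =>
    intro a
    exact ⟨∅, ∅, COk.empty, by simp, fun E _ => rfl⟩
  | succ n ih =>
    intro a
    by_cases h2 : (M.D (pairBits x a)).head? = some false
    · obtain ⟨S, Q, h3, h4, h5⟩ := one_question (Φ := Φ) (D := D) (E₀ := E₀) h1
        (M.D (pairBits x a)).tail
      obtain ⟨S', Q', h3', h4', h5'⟩ := ih (a ++ [join D (baseO Φ D E₀ n₀)
        (M.D (pairBits x a)).tail])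
      refine ⟨S ∪ S', Q ∪ Q', h3.union h3', ?_, fun E hE => ?_⟩
      · have := Finset.card_union_le S S'
        have := Finset.card_union_le Q Q'
        omega
      · rw [A2.run_succ, A2.run_succ, if_pos h2, if_pos h2,
          h5 E (hE.mono Finset.subset_union_left Finset.subset_union_left)]
        exact h5' E (hE.mono Finset.subset_union_right Finset.subset_union_right)
    · refine ⟨∅, ∅, COk.empty, by simp, fun E _ => ?_⟩
      rw [A2.run_succ, A2.run_succ, if_neg h2, if_neg h2]

theorem out_determined (h1 : 1 ≤ n₀) (M : Alg) (x : List Bool) :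
    ∃ (S : Finset TKey) (Q : Finset (List Bool)), COk n₀ S Q ∧
      S.card + Q.card ≤ M.p.eval x.length ∧
      ∀ E, TCompat Φ D E₀ n₀ S Q E → M.out (join D E) x = M.out (join D (baseO Φ D E₀ n₀)) x :=
  run_determined h1 M x _ []

/-- The number of the questions is small compared with all levels. -/
def Small (n₀ c : ℕ) : Prop := ∀ B h, 3 ≤ B → 1 ≤ h → n₀ < Len B h → c ≤ B ^ h

/-- Some good oracle fools the algorithm on the row `ys`. -/
theorem fool_mini (h6 : 6 ≤ n₀) (hE₀ : TGoodB Φ D n₀ E₀) (M : Alg) (x ys : List Bool)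
    (hys : n₀ + 1 = 2 * ys.length) (hys' : ∃ r, ys = true :: false :: false :: r)
    (hn : M.p.eval x.length < 2 ^ ys.length) (hs : Small n₀ (M.p.eval x.length + 3)) :
    ∃ (E : Oracle) (b : Bool), TGood Φ D E ∧ Agree n₀ E₀ E ∧
      (Mini (join D E) ys ↔ b = true) ∧ M.out (join D E) x ≠ some [b] := by
  classical
  obtain ⟨S, Q, hC, hcard, ho⟩ := out_determined (Φ := Φ) (D := D) (E₀ := E₀) (n₀ := n₀)
    (by omega) M x
  obtain ⟨w, hw1, hw2⟩ := exists_wit (y := ys) Q (by omega)
  obtain ⟨r, rfl⟩ := hys'
  have hlam := lam_pos (n₀ + 3)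
  -- the data
  have hdata : ∀ Xs : Finset (List Bool), (∀ z ∈ Xs, z = false :: false :: (r ++ w)) →
      Data.Ok ⟨S, Q, Xs, n₀ + 3, n₀ + 1, ∅, fun _ => True⟩ n₀ := by
    intro Xs hXs
    refine ⟨fun K hK => (hC.1 K hK).1, fun K hK => (hC.1 K hK).2, hC.2, ?_, ?_, by simp, ?_⟩
    · intro z hz
      rw [hXs z hz]
      refine ⟨?_, _, rfl⟩
      rw [List.length_cons, List.length_cons, List.length_append, hw1]
      simp only [List.length_cons] at hys ⊢
      omega
    · intro z hz
      rw [hXs z hz]
      exact hw2
    · intro B h hB hh hn'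
      have := hs B h hB hh hn'
      rw [Finset.card_empty]
      dsimp only
      omega
  have hB₀ : n₀ < Len (n₀ + 3) (n₀ + 1) := by
    unfold Len
    nlinarith
  have hmini : ∀ (E : Oracle) (Xs : Finset (List Bool)), (∀ x, n₀ ≤ x.length + 2 →
      (E (false :: false :: x) = true ↔ false :: false :: x ∈ Xs)) →
      (Mini (join D E) (true :: false :: false :: r) ↔ ∃ v : List Bool,
        v.length = (true :: false :: false :: r).length ∧ false :: false :: (r ++ v) ∈ Xs) := by
    intro E Xs hE
    unfold Mini
    refine exists_congr fun v => and_congr_right fun hv => ?_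
    show E (false :: false :: (r ++ v)) = true ↔ _
    refine hE _ ?_
    rw [List.length_append, hv]
    simp only [List.length_cons] at hys ⊢
    omega
  by_cases h : M.out (join D (baseO Φ D E₀ n₀)) x = some [true]
  · obtain ⟨E, h2, h3, h4, _⟩ := exists_tworld Φ D E₀ n₀ h6 hE₀ _ (hdata ∅ (by simp)) hB₀
    refine ⟨E, false, h2, h3.low, ?_, ?_⟩
    · rw [hmini E ∅ h4]
      simp
    · rw [ho E h3, h]
      simp
  · obtain ⟨E, h2, h3, h4, _⟩ := exists_tworld Φ D E₀ n₀ h6 hE₀ _
      (hdata {false :: false :: (r ++ w)} (by simp)) hB₀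
    refine ⟨E, true, h2, h3.low, ?_, ?_⟩
    · rw [hmini E _ h4]
      simp only [iff_true]
      exact ⟨w, hw1, Finset.mem_singleton_self _⟩
    · rw [ho E h3]
      exact h

/-- Some good oracle fools the compression `M`: two instances with different answers have the same
output, or the output for some instance is too long. Here `inp t` is the input for the instance
with the table `false :: true :: t`. -/
theorem fool_comp (h6 : 6 ≤ n₀) (hE₀ : TGoodB Φ D n₀ E₀) (M : Alg) (B₀ k ν l c : ℕ)
    (hB₀ : n₀ < Len B₀ k) (hν : ν + 2 < B₀) (hl : l + 2 ≤ ν) (inp : List Bool → List Bool)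
    (hc : ∀ t, t.length = ν → M.p.eval (inp t).length ≤ c) (hs : Small n₀ (2 * c + 5)) :
    ∃ (E : Oracle) (t t' : List Bool), TGood Φ D E ∧ Agree n₀ E₀ E ∧ t.length = ν ∧
      t'.length = ν ∧ TSat (join D E) (tabl B₀ (false :: true :: t)) k ∧
      ((∀ z, M.out (join D E) (inp t) = some z → l < z.length) ∨
        (M.out (join D E) (inp t) = M.out (join D E) (inp t') ∧
          ¬ TSat (join D E) (tabl B₀ (false :: true :: t')) k)) := by
  classical
  set O := join D (baseO Φ D E₀ n₀) with hO
  -- the data
  have hdata : ∀ (S : Finset TKey) (Q : Finset (List Bool)) (t t' : List Bool), COk n₀ S Q →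
      S.card + Q.card ≤ 2 * c → t.length = ν → t'.length = ν →
      Data.Ok ⟨S, Q, ∅, B₀, k, {t, t'}, fun u => u = t⟩ n₀ := by
    intro S Q t t' hC hcard ht ht'
    refine ⟨fun K hK => (hC.1 K hK).1, fun K hK => (hC.1 K hK).2, hC.2, by simp, by simp, ?_, ?_⟩
    · intro u hu
      simp only [Finset.mem_insert, Finset.mem_singleton] at hu
      rcases hu with rfl | rfl
      · rw [ht]; exact hν
      · rw [ht']; exact hν
    · intro B h hB hh hn'
      have := hs B h hB hh hn'
      have h2 : ({t, t'} : Finset (List Bool)).card ≤ 2 := Finset.card_le_two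
      dsimp only
      omega
  by_cases hlong : ∃ t : List Bool, t.length = ν ∧ ∀ z, M.out O (inp t) = some z → l < z.length
  · obtain ⟨t, ht, hz⟩ := hlong
    obtain ⟨S, Q, hC, hcard, ho⟩ := out_determined (Φ := Φ) (D := D) (E₀ := E₀) (n₀ := n₀)
      (by omega) M (inp t)
    have h3 := hc t ht
    obtain ⟨E, h2, h4, _, h5⟩ := exists_tworld Φ D E₀ n₀ h6 hE₀ _
      (hdata S Q t t hC (by omega) ht ht) hB₀
    refine ⟨E, t, t, h2, h4.low, ht, ht, (h5 t (by simp)).2 rfl, Or.inl ?_⟩
    intro z hz'
    rw [ho E h4] at hz'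
    exact hz z hz'
  · push Not at hlong
    choose! f hf1 hf2 using hlong
    -- the pigeonhole principle
    have hpig : ∃ t t' : List.Vector Bool ν, t ≠ t' ∧ f t.1 = f t'.1 := by
      by_contra hcon
      push Not at hcon
      have hinj : Function.Injective fun t : List.Vector Bool ν =>
          (f t.1 ++ true :: List.replicate (l - (f t.1).length) false) := by
        intro t t' he
        by_contra hne
        have h7 : f t.1 ≠ f t'.1 := hcon t t' hne
        apply h7
        have he' : f t.1 ++ true :: List.replicate (l - (f t.1).length) false =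
          f t'.1 ++ true :: List.replicate (l - (f t'.1).length) false := he
        have h8 := congrArg List.reverse he'
        rw [List.reverse_append, List.reverse_append, List.reverse_cons, List.reverse_cons,
          List.reverse_replicate, List.reverse_replicate, List.append_assoc, List.append_assoc] at h8
        have h9 : ∀ (m n : ℕ) (u v : List Bool), List.replicate m false ++ ([true] ++ u) =
            List.replicate n false ++ ([true] ++ v) → u = v := by
          intro m
          induction m with
          | zero =>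
            intro n u v h10
            rcases n with _ | n
            · simpa using h10
            · simp [List.replicate_succ] at h10
          | succ m ih =>
            intro n u v h10
            rcases n with _ | n
            · simp [List.replicate_succ] at h10
            · refine ih n u v ?_
              simpa [List.replicate_succ] using h10
        have h10 := h9 _ _ _ _ h8
        exact List.reverse_injective h10
      have hmap : ∀ t : List.Vector Bool ν,
          (f t.1 ++ true :: List.replicate (l - (f t.1).length) false).length = l + 1 := by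
        intro t
        have := hf2 t.1 t.2
        rw [List.length_append, List.length_cons, List.length_replicate]
        omega
      let g : List.Vector Bool ν → List.Vector Bool (l + 1) := fun t => ⟨_, hmap t⟩
      have h11 : Function.Injective g := by
        intro t t' he
        exact hinj (congrArg Subtype.val he)
      have h12 := Fintype.card_le_of_injective _ h11
      rw [card_vector, card_vector, Fintype.card_bool] at h12
      have h13 : ν ≤ l + 1 := (Nat.pow_le_pow_iff_right (by norm_num)).1 h12
      omega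
    obtain ⟨t, t', hne, heq⟩ := hpig
    have ht := t.2
    have ht' := t'.2
    obtain ⟨S, Q, hC, hcard, ho⟩ := out_determined (Φ := Φ) (D := D) (E₀ := E₀) (n₀ := n₀)
      (by omega) M (inp t.1)
    obtain ⟨S', Q', hC', hcard', ho'⟩ := out_determined (Φ := Φ) (D := D) (E₀ := E₀) (n₀ := n₀)
      (by omega) M (inp t'.1)
    have h3 := hc t.1 ht
    have h3' := hc t'.1 ht'
    have h18 := Finset.card_union_le S S'
    have h19 := Finset.card_union_le Q Q'
    obtain ⟨E, h2, h4, _, h5⟩ := exists_tworld Φ D E₀ n₀ h6 hE₀ _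
      (hdata (S ∪ S') (Q ∪ Q') t.1 t'.1 (hC.union hC') (by omega) ht ht') hB₀
    refine ⟨E, t.1, t'.1, h2, h4.low, ht, ht', (h5 t.1 (by simp)).2 rfl, Or.inr ⟨?_, ?_⟩⟩
    · rw [ho E (h4.mono Finset.subset_union_left Finset.subset_union_left),
        ho' E (h4.mono Finset.subset_union_right Finset.subset_union_right), hf1 t.1 ht,
        hf1 t'.1 ht', heq]
    · intro h20
      exact hne (Subtype.ext ((h5 t'.1 (by simp)).1 h20)).symm

end

end Pool.Agent.H681.TB
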