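import Pool.Agent.H681.TB.Code

/-!
# Oracles with codes given by tables
-/

set_option autoImplicit false

namespace Pool.Agent.H681.TB

open Pool.Agent.NPC Pool.Agent.H620R2.Gauge Pool.Agent.H681.OR
open Pool.Agent.TH678.GC (join)
open Pool.Agent.Y626.WC (cut cut_cut exists_self)

/-- Some concatenation of `h` labels from the table `T` is in the oracle. -/
def TSat (A : Oracle) (T : List (List Bool)) (h : ℕ) : Prop :=
  ∃ u : List (List Bool), u.length = h ∧ (∀ l ∈ u, l ∈ T) ∧ A u.flatten = true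

/-- the number of entries and the length of the labels -/
def Shape (B : ℕ) (T : List (List Bool)) : Prop := T.length = NE B ∧ ∀ l ∈ T, l.length = lam B

/-- the length of the questions -/
def Len (B h : ℕ) : ℕ := h * lam B

/-- the table of the name `x` -/
noncomputable def tabl (B : ℕ) (x : List Bool) : List (List Bool) :=
  (List.range (NE B)).map (lab B x)

theorem tabl_shape (B : ℕ) (x : List Bool) : Shape B (tabl B x) := by
  refine ⟨by simp [tabl], fun l hl => ?_⟩
  obtain ⟨a, _, rfl⟩ := List.mem_map.1 hl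
  exact lab_length B x a

theorem tsat_tabl {A : Oracle} {B h : ℕ} {x : List Bool} : TSat A (tabl B x) h ↔
    ∃ as : List ℕ, as.length = h ∧ (∀ a ∈ as, a < NE B) ∧ A (qst B x as) = true := by
  constructor
  · rintro ⟨u, h1, h2, h3⟩
    have h4 : ∃ as : List ℕ, (∀ a ∈ as, a < NE B) ∧ u = as.map (lab B x) := by
      clear h1 h3
      induction u with
      | nil => exact ⟨[], by simp, rfl⟩
      | cons l u ih =>
        obtain ⟨as, h5, h6⟩ := ih fun l hl => h2 l (List.mem_cons_of_mem _ hl)
        obtain ⟨a, ha, hl⟩ := List.mem_map.1 (h2 l List.mem_cons_self)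
        rw [List.mem_range] at ha
        refine ⟨a :: as, ?_, by rw [List.map_cons, hl, h6]⟩
        intro b hb
        rcases List.mem_cons.1 hb with rfl | hb
        · exact ha
        · exact h5 b hb
    obtain ⟨as, h5, rfl⟩ := h4
    exact ⟨as, by simpa using h1, h5, h3⟩
  · rintro ⟨as, h1, h2, h3⟩
    refine ⟨as.map (lab B x), by simpa using h1, fun l hl => ?_, h3⟩
    obtain ⟨a, ha, rfl⟩ := List.mem_map.1 hl
    exact List.mem_map.2 ⟨a, List.mem_range.2 (h2 a ha), rfl⟩

theorem flatten_length {n : ℕ} : ∀ u : List (List Bool), (∀ l ∈ u, l.length = n) →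
    u.flatten.length = u.length * n
  | [], _ => by simp
  | l :: u, h => by
    rw [List.flatten_cons, List.length_append, h l List.mem_cons_self,
      flatten_length u fun l hl => h l (List.mem_cons_of_mem _ hl), List.length_cons]
    ring

theorem tsat_congr {D E E' : Oracle} {n B h : ℕ} {T : List (List Bool)} (hT : Shape B T)
    (ha : Agree n E E') (hn : Len B h ≤ n) : TSat (join D E) T h ↔ TSat (join D E') T h := by
  unfold TSat
  refine exists_congr fun u => and_congr_right fun h1 => and_congr_right fun h2 => ?_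
  rw [join_congr ha]
  rw [flatten_length u fun l hl => hT.2 l (h2 l hl), h1]
  exact hn

/-- The name of a statement about the oracle: number `i` of the property, the string `v`, the bound
`q` for the length of the questions; the statement is coded by a table of level `(B, h)`. -/
structure TKey : Type where
  /-- the number of the property -/
  i : ℕ
  /-- the string -/
  v : List Bool
  /-- the bound for the questions -/
  q : ℕ
  /-- the level of the table -/
  B : ℕ
  /-- the number of the labels in a question -/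
  h : ℕ

/-- the name of the statement -/
def TKey.nm (K : TKey) : List Bool :=
  pairBits (List.replicate K.i true) (pairBits (List.replicate K.q true) K.v)

/-- the question for the bit number `n` of the table -/
def TKey.enc (K : TKey) (n : ℕ) : List Bool :=
  pairBits (unit (NE K.B * lam K.B) n) (pairBits (List.replicate K.B true)
    (pairBits (List.replicate (Len K.B K.h) true) K.nm))

/-- the length of the questions for the bits of the table -/
def TKey.len (K : TKey) : ℕ := 2 * (NE K.B * lam K.B) + 2 + (2 * K.B + 1 +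
  (2 * Len K.B K.h + 1 + K.nm.length))

theorem TKey.enc_length (K : TKey) (n : ℕ) : (K.enc n).length + 1 = K.len := by
  unfold TKey.enc TKey.len
  rw [pairBits_len, pairBits_len, pairBits_len, unit_length, List.length_replicate,
    List.length_replicate]
  omega

theorem TKey.enc_inj {K K' : TKey} {n n' : ℕ} (hn : n < NE K.B * lam K.B)
    (h : K.enc n = K'.enc n') : K = K' ∧ n = n' := by
  obtain ⟨h1, h2⟩ := pairBits_inj' h
  obtain ⟨h3, h4⟩ := pairBits_inj' h2
  obtain ⟨h5, h6⟩ := pairBits_inj' h4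
  obtain ⟨h7, h8⟩ := pairBits_inj' h6
  obtain ⟨h9, h10⟩ := pairBits_inj' h8
  have e1 : K.B = K'.B := by simpa using congrArg List.length h3
  have e2 : Len K.B K.h = Len K'.B K'.h := by simpa using congrArg List.length h5
  have e3 : K.i = K'.i := by simpa using congrArg List.length h7
  have e4 : K.q = K'.q := by simpa using congrArg List.length h9
  have e5 : K.h = K'.h := by
    rw [← e1] at e2
    exact Nat.eq_of_mul_eq_mul_right (lam_pos K.B) e2
  obtain ⟨i, v, q, B, t⟩ := K
  obtain ⟨i', v', q', B', t'⟩ := K'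
  dsimp only at *
  subst e1 e3 e4 e5 h10
  exact ⟨rfl, unit_inj hn h1⟩

/-- the condition on the levels -/
def TKey.Ok (K : TKey) : Prop := K.nm.length + 1 < K.B ∧ 1 ≤ K.h ∧ K.q < Len K.B K.h

theorem TKey.nm_pos (K : TKey) : 2 ≤ K.nm.length := by
  unfold TKey.nm
  rw [pairBits_len, pairBits_len]
  omega

theorem TKey.Ok.three {K : TKey} (h : K.Ok) : 3 ≤ K.B := by
  have := K.nm_pos
  have := h.1
  omega

theorem TKey.Len_lt (K : TKey) : Len K.B K.h < K.len := by unfold TKey.len; omega

theorem idx_lt {a j N l : ℕ} (ha : a < N) (hj : j < l) : a * l + j < N * l := by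
  have : (a + 1) * l ≤ N * l := Nat.mul_le_mul_right _ ha
  rw [Nat.succ_mul] at this
  omega

theorem idx_inj {a j a' j' l : ℕ} (hj : j < l) (hj' : j' < l) (h : a * l + j = a' * l + j') :
    a = a' ∧ j = j' := by
  have h1 : (a * l + j) / l = a := by
    rw [mul_comm, Nat.mul_add_div (by omega), Nat.div_eq_of_lt hj, add_zero]
  have h2 : (a' * l + j') / l = a' := by
    rw [mul_comm, Nat.mul_add_div (by omega), Nat.div_eq_of_lt hj', add_zero]
  have h3 : a = a' := by rw [← h1, h, h2]
  subst h3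
  exact ⟨rfl, by omega⟩

section

variable (Φ : ℕ → List Bool → Oracle → Prop) (D : Oracle)

/-- the statement named by the key is true -/
def ttruth (E : Oracle) (K : TKey) : Prop := Φ K.i K.v (upTo K.q (join D E))

/-- the table of the key `K` is `T` -/
def TCodes (E : Oracle) (K : TKey) (T : List (List Bool)) : Prop :=
  ∀ a < NE K.B, ∀ j < lam K.B, E (true :: K.enc (a * lam K.B + j)) =
    (T.getD a []).getD j false

variable {Φ D}

theorem ttruth_congr {E E' : Oracle} {K : TKey} (h : Agree K.q E E') :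
    ttruth Φ D E K ↔ ttruth Φ D E' K := by
  have h1 : upTo K.q (join D E) = upTo K.q (join D E') := by
    funext z
    unfold upTo
    by_cases hz : z.length ≤ K.q
    · rw [if_pos hz, if_pos hz]
      exact join_congr h hz
    · rw [if_neg hz, if_neg hz]
  unfold ttruth
  rw [h1]

theorem tcodes_congr {E E' : Oracle} {n : ℕ} {K : TKey} {T : List (List Bool)}
    (h : Agree n E E') (hn : K.len < n) : TCodes E K T ↔ TCodes E' K T := by
  unfold TCodes
  refine forall₂_congr fun a _ => forall₂_congr fun j _ => ?_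
  rw [h _ (by rw [List.length_cons, K.enc_length]; exact hn)]

variable (Φ D)

/-- The string which makes `Mini` true for some row. -/
def oneStr : List Bool := [false, false, false, false, false]

/-- The levels below `n₀` are as they should be. -/
structure TGoodB (n₀ : ℕ) (E : Oracle) : Prop where
  yes : ∀ B h, 3 ≤ B → 1 ≤ h → Len B h ≤ n₀ → ∃ T, Shape B T ∧ TSat (join D E) T h
  no : ∀ B h, 3 ≤ B → 1 ≤ h → Len B h ≤ n₀ → ∃ T, Shape B T ∧ ¬ TSat (join D E) T h
  code : ∀ K : TKey, K.Ok → K.len < n₀ →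
    ∃ T, Shape K.B T ∧ TCodes E K T ∧ (TSat (join D E) T K.h ↔ ttruth Φ D E K)
  one : E oneStr = true

/-- All levels are as they should be. -/
structure TGood (E : Oracle) : Prop where
  yes : ∀ B h, 3 ≤ B → 1 ≤ h → ∃ T, Shape B T ∧ TSat (join D E) T h
  no : ∀ B h, 3 ≤ B → 1 ≤ h → ∃ T, Shape B T ∧ ¬ TSat (join D E) T h
  code : ∀ K : TKey, K.Ok →
    ∃ T, Shape K.B T ∧ TCodes E K T ∧ (TSat (join D E) T K.h ↔ ttruth Φ D E K)
  one : E oneStr = true

variable {Φ D}

theorem TGood.goodB {E : Oracle} (h : TGood Φ D E) (n₀ : ℕ) : TGoodB Φ D n₀ E :=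
  ⟨fun B t h1 h2 _ => h.yes B t h1 h2, fun B t h1 h2 _ => h.no B t h1 h2,
    fun K hK _ => h.code K hK, h.one⟩

theorem TGood.of_local {E : Oracle} (h : ∀ n, ∃ E', TGood Φ D E' ∧ Agree n E' E) :
    TGood Φ D E := by
  refine ⟨fun B t h1 h2 => ?_, fun B t h1 h2 => ?_, fun K hK => ?_, ?_⟩
  · obtain ⟨E', h3, h4⟩ := h (Len B t)
    obtain ⟨T, h5, h6⟩ := h3.yes B t h1 h2
    exact ⟨T, h5, (tsat_congr h5 h4 le_rfl).1 h6⟩
  · obtain ⟨E', h3, h4⟩ := h (Len B t)
    obtain ⟨T, h5, h6⟩ := h3.no B t h1 h2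
    exact ⟨T, h5, fun h7 => h6 ((tsat_congr h5 h4 le_rfl).2 h7)⟩
  · obtain ⟨E', h3, h4⟩ := h (K.len + 1)
    obtain ⟨T, h5, h6, h7⟩ := h3.code K hK
    have h8 := K.Len_lt
    have h9 := hK.2.2
    refine ⟨T, h5, (tcodes_congr h4 (Nat.lt_succ_self _)).1 h6, ?_⟩
    rw [← tsat_congr h5 h4 (by omega), h7, ttruth_congr (h4.mono (by omega))]
  · obtain ⟨E', h3, h4⟩ := h 6
    rw [← h4 oneStr (by decide)]
    exact h3.one

open Classical in
/-- a table for the truth value `b` -/
noncomputable def pickT (D E : Oracle) (B h : ℕ) (b : Prop) : List (List Bool) :=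
  if h : ∃ T, Shape B T ∧ (TSat (join D E) T h ↔ b) then h.choose else []

theorem pickT_spec {E : Oracle} {B h : ℕ} {b : Prop}
    (hex : ∃ T, Shape B T ∧ (TSat (join D E) T h ↔ b)) :
    Shape B (pickT D E B h b) ∧ (TSat (join D E) (pickT D E B h b) h ↔ b) := by
  unfold pickT
  rw [dif_pos hex]
  exact hex.choose_spec

variable (Φ D)

/-- the table for the key `K` -/
noncomputable def tabOf (E : Oracle) (K : TKey) : List (List Bool) :=
  pickT D (cut E (Len K.B K.h)) K.B K.h (ttruth Φ D (cut E (Len K.B K.h)) K)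

variable {Φ D}

theorem tabOf_congr {E E' : Oracle} {n : ℕ} {K : TKey} (h : Agree n E E')
    (hn : Len K.B K.h ≤ n) : tabOf Φ D E K = tabOf Φ D E' K := by
  unfold tabOf
  rw [(h.mono hn).cut_eq]

theorem tabOf_spec {E : Oracle} {K : TKey} (hK : K.Ok)
    (hy : ∃ T, Shape K.B T ∧ TSat (join D E) T K.h)
    (hn : ∃ T, Shape K.B T ∧ ¬ TSat (join D E) T K.h) :
    Shape K.B (tabOf Φ D E K) ∧ (TSat (join D E) (tabOf Φ D E K) K.h ↔ ttruth Φ D E K) := by
  have ha : Agree (Len K.B K.h) (cut E (Len K.B K.h)) E := agree_cut E _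
  have h1 : ∃ T, Shape K.B T ∧ (TSat (join D (cut E (Len K.B K.h))) T K.h ↔
      ttruth Φ D (cut E (Len K.B K.h)) K) := by
    by_cases ht : ttruth Φ D (cut E (Len K.B K.h)) K
    · obtain ⟨T, h2, h3⟩ := hy
      exact ⟨T, h2, iff_of_true ((tsat_congr h2 ha le_rfl).2 h3) ht⟩
    · obtain ⟨T, h2, h3⟩ := hn
      exact ⟨T, h2, iff_of_false (fun h => h3 ((tsat_congr h2 ha le_rfl).1 h)) ht⟩
  obtain ⟨h2, h3⟩ := pickT_spec h1
  have h2' : Shape K.B (tabOf Φ D E K) := h2
  refine ⟨h2', ?_⟩
  rw [← tsat_congr h2' ha le_rfl, ← ttruth_congr (ha.mono hK.2.2.le)]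
  exact h3

end

/-! ### Commitments -/

/-- The data of a world: committed keys `S`, strings `Q` not in the oracle, strings `Xs` in the
oracle, and tables with the names `false :: true :: t`, `t ∈ Tn`, of level `(B₀, k)`, which are
satisfiable if `Tv t`. -/
structure Data : Type where
  S : Finset TKey
  Q : Finset (List Bool)
  Xs : Finset (List Bool)
  B₀ : ℕ
  k : ℕ
  Tn : Finset (List Bool)
  Tv : List Bool → Prop

/-- The data are acceptable. -/
structure Data.Ok (W : Data) (n₀ : ℕ) : Prop where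
  ok : ∀ K ∈ W.S, K.Ok
  lev : ∀ K ∈ W.S, n₀ < Len K.B K.h
  q : ∀ q ∈ W.Q, n₀ ≤ q.length ∧ ∃ x, q = false :: x
  xs : ∀ z ∈ W.Xs, n₀ ≤ z.length ∧ ∃ x, z = false :: false :: x
  disj : ∀ z ∈ W.Xs, z ∉ W.Q
  tn : ∀ t ∈ W.Tn, t.length + 2 < W.B₀
  count : ∀ B h, 3 ≤ B → 1 ≤ h → n₀ < Len B h → W.S.card + W.Tn.card + W.Q.card + 3 ≤ B ^ h

/-- The oracle `E` respects the commitments. -/
structure TCompat (Φ : ℕ → List Bool → Oracle → Prop) (D E₀ : Oracle) (n₀ : ℕ)
    (S : Finset TKey) (Q : Finset (List Bool)) (E : Oracle) : Prop where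
  low : Agree n₀ E₀ E
  zero : ∀ q ∈ Q, E q = false
  code : ∀ K ∈ S, TCodes E K (tabl K.B (true :: K.nm))
  dead : ∀ c : List Bool, n₀ ≤ c.length + 1 →
    (¬ ∃ (K : TKey) (a j : ℕ), K.Ok ∧ a < NE K.B ∧ j < lam K.B ∧ K.enc (a * lam K.B + j) = c) →
      E (true :: c) = false
  lowcode : ∀ K : TKey, K.Ok → Len K.B K.h ≤ n₀ → n₀ ≤ K.len → TCodes E K (tabOf Φ D E₀ K)

theorem TCompat.mono {Φ : ℕ → List Bool → Oracle → Prop} {D E₀ : Oracle} {n₀ : ℕ}
    {S S' : Finset TKey} {Q Q' : Finset (List Bool)} {E : Oracle}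
    (h : TCompat Φ D E₀ n₀ S' Q' E) (hS : S ⊆ S') (hQ : Q ⊆ Q') : TCompat Φ D E₀ n₀ S Q E :=
  ⟨h.low, fun q hq => h.zero q (hQ hq), fun p hp => h.code p (hS hp), h.dead, h.lowcode⟩

end Pool.Agent.H681.TB
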